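import Pool.Agent.K9h29.ZD.QFin
import Pool.Agent.W165.CE.Euler

/-!
# The zeros of `L(E/ℚ(ζ_q), s)` near the line `Re s = 1`: a density theorem uniform in `q` and in the height

`E : y² = x³ + a x + b` is any elliptic curve over `ℚ` (with or without complex multiplication), `N`
is its conductor and `f ∈ S_2(Γ₀(N))` is its newform.  For every `q ≥ 1` prime to `N` and every cyclotomic
field `K = ℚ(ζ_q)` the Hasse-Weil `L`-function `L(E/K, s)` (the Euler product over all primes `v` of `K`,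
with the numbers of points over the residue fields) is entire, and the number of its zeros with
`1/2 < Re s < 3/2`, `|Im s| ≤ T`, `|Re s - 1| ≥ δ`, counted with multiplicity, is at most
`C (q T) ^ (1 - c δ) log (q T)`, with positive constants `c`, `C` which depend only on `E`: the bound
holds for every single field `ℚ(ζ_q)`, for all `T ≥ 2` and all `δ ≥ 0`.

Proof.  `L(E/ℚ(ζ_q), s)` is the product of the `L`-functions of the twists of `f` by the primitive characters of
conductor dividing `q`.  For all primitive characters `χ` modulo `q` together the mean square of the mollified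
`L`-function over the heights from `T` to `2 T` (or over a fixed interval), on the line `Re s = 1/2` (analytic
normalisation), is `O(φ(q) T)`, uniformly in `q` and `T`, for mollifiers of length `(q T) ^ κ`, `κ > 0` small.
After Parseval (over the additive characters modulo `q`, and Mellin-Parseval in the height) this is a sum of integrals of
`|f|²` with the mollifier along rays which end at the points `j / q`; the diagonal is Selberg's quadratic form, and the shifted
convolution sums are estimated, uniformly in `q`, by Jutila's circle method.  Convexity gives the mean value of `L M - 1` to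
the right of that line, and the zeros are counted with an inequality of Jensen's type.  The circle method and the sums of
the mollifier for a single newform are those of the starting modules `Pool.Agent.Y671.GL`, `Pool.Agent.Y412`,
`Pool.Agent.Y24.GL`, `Pool.Agent.Y809.GL` (helper671, helper412, helper24, helper809); here they are made uniform in the
modulus (`Pool.Agent.K9h29.ZD`, helper29).  The arithmetic of the cyclotomic fields is that of the starting modules
`Pool.Agent.H82R3.EK` and `Pool.Agent.W165.CE`.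
-/

set_option autoImplicit false

open Complex NumberField IsDedekindDomain UpperHalfPlane MatrixGroups CongruenceSubgroup

namespace Pool.Agent.Results.MP_fb225e_nt.CyclotomicZeroDensity

/-- The coefficient `a_p` of `E : y² = x³ + a x + b` at a prime `p ∤ 2 (4a³ + 27b²)`: `p` minus the
number of pairs `(x, y)` modulo `p` with `y² = x³ + a x + b`. -/
noncomputable def ap (a b : ℤ) (p : ℕ) : ℤ :=
  (p : ℤ) - Nat.card {x : ZMod p × ZMod p //
    x.2 ^ 2 = x.1 ^ 3 + (a : ZMod p) * x.1 + (b : ZMod p)}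

/-- The `n`-th Fourier coefficient of `f`. -/
noncomputable def coef {N : ℕ} (f : CuspForm (Gamma0 N : Subgroup (GL (Fin 2) ℝ)) 2) (n : ℕ) : ℂ :=
  (qExpansion 1 f).coeff n

/-- `f ∈ S_2(Γ₀(N))` is the newform of the elliptic curve `E : y² = x³ + a x + b`: the Fourier
coefficients `c(n)` of `f` are real with `c(1) = 1`, they satisfy the Hecke relations
`c(mn) = c(m) c(n)` for coprime `m`, `n` and `c(p^(j+2)) = c(p) c(p^(j+1)) - p c(p^j)` (without the
last term if `p ∣ N`), `f` is an eigenfunction of the Fricke involution: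
`f(-1/(Nτ)) = -w N τ² f(τ)` with `w = ±1`, and for all primes `p ∤ 2 (4a³ + 27b²)` one has `p ∤ N`
and `c(p) = a_p(E)`. -/
structure IsFormOf (a b : ℤ) (N : ℕ) (f : CuspForm (Gamma0 N : Subgroup (GL (Fin 2) ℝ)) 2) :
    Prop where
  one : coef f 1 = 1
  real : ∀ n, (coef f n).im = 0
  mul : ∀ m n : ℕ, Nat.Coprime m n → coef f (m * n) = coef f m * coef f n
  pow : ∀ p j : ℕ, p.Prime → coef f (p ^ (j + 2)) = coef f p * coef f (p ^ (j + 1)) -
      (if p ∣ N then 0 else (p : ℂ) * coef f (p ^ j))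
  fricke : ∃ w : ℝ, (w = 1 ∨ w = -1) ∧ ∀ τ τ' : ℍ, (τ' : ℂ) * ((N : ℂ) * (τ : ℂ)) = -1 →
    f τ' = -(w : ℂ) * (N : ℂ) * (τ : ℂ) ^ 2 * f τ
  points : ∀ p : ℕ, p.Prime → ¬ (p : ℤ) ∣ 2 * (4 * a ^ 3 + 27 * b ^ 2) →
    ¬ p ∣ N ∧ coef f p = (ap a b p : ℂ)

/-- `pw t u n = α ^ n + β ^ n`, where `α`, `β` are the roots of `X² - t X + u`. -/
noncomputable def pw (t u : ℂ) : ℕ → ℂ
  | 0 => 2
  | 1 => t
  | n + 2 => t * pw t u (n + 1) - u * pw t u n

section
variable {K : Type} [Field K] [NumberField K]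

/-- The number `a_v` of `E : y² = x³ + a x + b` at a prime `v` of `K`: `Nv` minus the number of affine
solutions `(x, y)` of the equation over the residue field `𝓞 K / v`. -/
noncomputable def av (a b : ℤ) (v : HeightOneSpectrum (𝓞 K)) : ℤ :=
  ((Ideal.absNorm v.asIdeal : ℕ) : ℤ) -
    ((Nat.card {x : (𝓞 K ⧸ v.asIdeal) × (𝓞 K ⧸ v.asIdeal) //
      x.2 ^ 2 = x.1 ^ 3 + (a : 𝓞 K ⧸ v.asIdeal) * x.1 + (b : 𝓞 K ⧸ v.asIdeal)} : ℕ) : ℤ)

open Classical in
/-- The local factor of `L(E/K, s)` at the prime `v` of `K`.  If `v ∤ 2 (4a³ + 27b²)`, it is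
`(1 - a_v (Nv)^(-s) + (Nv)^(1-2s))⁻¹`.  If `v ∣ 2 (4a³ + 27b²)` and `Nv = p ^ d` with `p` prime, it is
`(1 - (α^d + β^d) (Nv)^(-s) + (Nv)^(1-2s))⁻¹` for `p ∤ N`, where `α`, `β` are the roots of
`X² - c(p) X + p`, and `(1 - c(p)^d (Nv)^(-s))⁻¹` for `p ∣ N`. -/
noncomputable def factor (a b : ℤ) {N : ℕ} (f : CuspForm (Gamma0 N : Subgroup (GL (Fin 2) ℝ)) 2)
    (s : ℂ) (v : HeightOneSpectrum (𝓞 K)) : ℂ :=
  if ((2 * (4 * a ^ 3 + 27 * b ^ 2) : ℤ) : 𝓞 K) ∈ v.asIdeal then
    (1 - pw (coef f (Ideal.absNorm v.asIdeal).minFac)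
          (if (Ideal.absNorm v.asIdeal).minFac ∣ N then 0 else ((Ideal.absNorm v.asIdeal).minFac : ℂ))
          ((Ideal.absNorm v.asIdeal).factorization (Ideal.absNorm v.asIdeal).minFac)
          * ((Ideal.absNorm v.asIdeal : ℕ) : ℂ) ^ (-s)
      + (if (Ideal.absNorm v.asIdeal).minFac ∣ N then (0 : ℂ) else
          ((Ideal.absNorm v.asIdeal : ℕ) : ℂ) ^ (1 - 2 * s)))⁻¹
  else
    (1 - ((av a b v : ℤ) : ℂ) * ((Ideal.absNorm v.asIdeal : ℕ) : ℂ) ^ (-s)
      + ((Ideal.absNorm v.asIdeal : ℕ) : ℂ) ^ (1 - 2 * s))⁻¹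

end

/-- The zeros of `F` with `1/2 < Re s < 3/2` and `|Im s| ≤ T` whose distance from the line `Re s = 1` is at
least `δ`. -/
def Off (F : ℂ → ℂ) (δ T : ℝ) : Set ℂ :=
  {s : ℂ | 1 / 2 < s.re ∧ s.re < 3 / 2 ∧ δ ≤ |s.re - 1| ∧ |s.im| ≤ T ∧ F s = 0}

/-- The number of these zeros, counted with multiplicity. -/
noncomputable def num (F : ℂ → ℂ) (δ T : ℝ) : ℕ := ∑ᶠ s ∈ Off F δ T, analyticOrderNatAt F s

/-! ### Translation from the analytic normalisation -/

theorem order_shift (L : ℂ → ℂ) (s : ℂ) :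
    analyticOrderNatAt (fun z => L (z - 1 / 2)) (s + 1 / 2) = analyticOrderNatAt L s := by
  have hg : AnalyticAt ℂ (fun z : ℂ => z - 1 / 2) (s + 1 / 2) := by fun_prop
  have hd : deriv (fun z : ℂ => z - 1 / 2) (s + 1 / 2) ≠ 0 := by
    simp
  have h := analyticOrderAt_comp_of_deriv_ne_zero (f := L) hg hd
  unfold analyticOrderNatAt
  have h2 : (fun z : ℂ => L (z - 1 / 2)) = L ∘ (fun z : ℂ => z - 1 / 2) := rfl
  rw [h2, h]
  norm_num

theorem Off_shift (L : ℂ → ℂ) (δ T : ℝ) :
    Off (fun z => L (z - 1 / 2)) δ T =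
      (fun s : ℂ => s + 1 / 2) '' {s : ℂ | s ∈ Pool.Agent.K9h29.ZD.off δ T ∧ L s = 0} := by
  ext s
  constructor
  · rintro ⟨h1, h2, h3, h4, h5⟩
    refine ⟨s - 1 / 2, ⟨⟨?_, ?_, ?_, ?_⟩, h5⟩, by ring⟩
    · simp; linarith
    · simp; linarith
    · have e : (s - 1 / 2 : ℂ).re - 1 / 2 = s.re - 1 := by simp; ring
      rw [e]
      exact h3
    · simpa using h4
  · rintro ⟨t, ⟨⟨h1, h2, h3, h4⟩, h5⟩, rfl⟩
    refine ⟨?_, ?_, ?_, ?_, ?_⟩
    · simp; linarith
    · simp; linarith
    · have e : (t + 1 / 2 : ℂ).re - 1 = t.re - 1 / 2 := by simp; ring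
      simp only [e]
      exact h3
    · simpa using h4
    · simp only [add_sub_cancel_right]
      exact h5

theorem inj_shift : Function.Injective (fun s : ℂ => s + 1 / 2) := fun a b h => by
  simpa using h

theorem num_shift (L : ℂ → ℂ) (δ T : ℝ) :
    num (fun z => L (z - 1 / 2)) δ T =
      Pool.Agent.H82R3.EK.cnt L (Pool.Agent.K9h29.ZD.off δ T) := by
  unfold num Pool.Agent.H82R3.EK.cnt
  rw [Off_shift, finsum_mem_image (inj_shift.injOn)]
  refine finsum_congr fun s => finsum_congr fun _ => ?_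
  exact order_shift L s

theorem lamf_eq {N : ℕ} (f : CuspForm (Gamma0 N : Subgroup (GL (Fin 2) ℝ)) 2)
    (hr : ∀ n, (coef f n).im = 0) (p : ℕ) (hp : p.Prime) (s : ℂ) :
    (W388.lamf f p : ℂ) * (p : ℂ) ^ (-(s - 1 / 2)) = coef f p * (p : ℂ) ^ (-s) := by
  have hp0 : (0 : ℝ) < p := by exact_mod_cast hp.pos
  have hpc : (p : ℂ) ≠ 0 := by exact_mod_cast hp.ne_zero
  have hc : coef f p = ((coef f p).re : ℂ) := by
    apply Complex.ext
    · simp
    · simp [hr p]
  unfold W388.lamf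
  rw [hc]
  unfold coef
  rw [show -(s - 1 / 2) = -s + (1 / 2 : ℂ) by ring, Complex.cpow_add _ _ hpc]
  push_cast
  rw [Complex.ofReal_cpow hp0.le]
  have e : ((((2 : ℝ) - 1) / 2 : ℝ) : ℂ) = (1 / 2 : ℂ) := by push_cast; norm_num
  rw [e]
  have hne : (p : ℂ) ^ (1 / 2 : ℂ) ≠ 0 := by
    rw [Ne, Complex.cpow_eq_zero_iff]
    exact fun h => hpc h.1
  rw [Complex.ofReal_natCast]
  field_simp

theorem eul_shift {N : ℕ} (f : CuspForm (Gamma0 N : Subgroup (GL (Fin 2) ℝ)) 2)
    (hr : ∀ n, (coef f n).im = 0) (q : ℕ)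
    (χ : DirichletCharacter ℂ q) (s : ℂ) (p : ℕ) (hp : p.Prime) :
    W165.CE.eul N (coef f) q χ s p =
      (1 - χ (p : ZMod q) * (W388.lamf f p : ℂ) * (p : ℂ) ^ (-(s - 1 / 2)) +
      (if p ∣ N then 0 else χ (p : ZMod q) ^ 2 * (p : ℂ) ^ (-2 * (s - 1 / 2))))⁻¹ := by
  unfold W165.CE.eul
  rw [mul_assoc (χ (p : ZMod q)) (W388.lamf f p : ℂ), lamf_eq f hr p hp s,
    mul_assoc (χ (p : ZMod q)) (coef f p), show (-2 * (s - 1 / 2) : ℂ) = 1 - 2 * s by ring,
    Pool.Agent.H82R3.EK.prime_cpow p hp.ne_zero s]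
  split_ifs with h
  · rw [zero_mul, mul_zero]
  · rfl

theorem pw_eq_lib (t u : ℂ) : ∀ n : ℕ, pw t u n = W165.CE.pw t u n
  | 0 => rfl
  | 1 => rfl
  | n + 2 => by
    rw [pw, W165.CE.pw, pw_eq_lib t u (n + 1), pw_eq_lib t u n]

theorem factor_eq_lib (a b : ℤ) {N : ℕ} (f : CuspForm (Gamma0 N : Subgroup (GL (Fin 2) ℝ)) 2)
    {K : Type} [Field K] [NumberField K] (s : ℂ) (v : HeightOneSpectrum (𝓞 K)) :
    factor a b f s v = W165.CE.fac a b N (coef f) s v := by
  unfold factor W165.CE.fac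
  rw [pw_eq_lib]
  rfl

open Pool.Agent.H82R3.EK in
/-- **Main theorem.** Let `E : y² = x³ + a x + b` be an elliptic curve over `ℚ` and let
`f ∈ S_2(Γ₀(N))` be its newform. There are functions `L q` such that for every `q ≥ 1` prime to `N` and
every cyclotomic field `K = ℚ(ζ_q)`, `L q` is entire and is for `Re s > 3/2` the Euler product over all
primes `v` of `K` of the local factors of `E`; and there are constants `c > 0` and `C` such that for every `q ≥ 1`
prime to `N`, for all `T ≥ 2` and all `δ ≥ 0`, the zeros of `L q` with `1/2 < Re s < 3/2`, `|Im s| ≤ T` and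
`|Re s - 1| ≥ δ` are finite in number, and their number, counted with multiplicity, is at most
`C (q T) ^ (1 - c δ) log (q T)`. -/
theorem result (a b : ℤ) (hE : 4 * a ^ 3 + 27 * b ^ 2 ≠ 0) (N : ℕ) [NeZero N]
    (f : CuspForm (Gamma0 N : Subgroup (GL (Fin 2) ℝ)) 2) (hf : IsFormOf a b N f) :
    ∃ L : ℕ → ℂ → ℂ,
      (∀ q : ℕ, 1 ≤ q → Nat.Coprime q N → Differentiable ℂ (L q) ∧
        ∀ (K : Type) [Field K] [NumberField K] [IsCyclotomicExtension {q} ℚ K] (s : ℂ), 3 / 2 < s.re →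
          HasProd (fun v : HeightOneSpectrum (𝓞 K) => factor a b f s v) (L q s)) ∧
      ∃ c C : ℝ, 0 < c ∧ 0 < C ∧
        ∀ q : ℕ, 1 ≤ q → Nat.Coprime q N → ∀ T δ : ℝ, 2 ≤ T → 0 ≤ δ →
          (Off (L q) δ T).Finite ∧
          (num (L q) δ T : ℝ) ≤ C * (q * T) ^ (1 - c * δ) * Real.log (q * T) := by
  classical
  obtain ⟨w, hw, hfr⟩ := hf.fricke
  have hN0 : (0 : ℝ) ≤ (N : ℝ) := Nat.cast_nonneg N
  have hsq : ((Real.sqrt N : ℝ) : ℂ) ^ 2 = (N : ℂ) := by
    have h1 : (Real.sqrt N) ^ 2 = (N : ℝ) := Real.sq_sqrt hN0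
    exact_mod_cast congrArg (fun x : ℝ => (x : ℂ)) h1
  have hf' : W388.IsNewf N ((2 : ℕ) : ℤ) f w := by
    refine ⟨hf.one, hf.real, hf.mul, ?_, hw, ?_⟩
    · intro p j hp
      have h1 := hf.pow p j hp
      unfold coef at h1
      rw [h1]
      norm_num
    · intro τ τ' h
      rw [hfr τ τ' h]
      congr 1
      have hI : Complex.I ^ 2 = -1 := Complex.I_sq
      have : (((Real.sqrt N : ℝ) : ℂ) * (τ : ℂ) / Complex.I) ^ (((2 : ℕ) : ℤ)) =
          -((N : ℂ) * (τ : ℂ) ^ 2) := by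
        rw [zpow_natCast, div_pow, mul_pow, hsq, hI]
        ring
      rw [this]
      ring
  obtain ⟨L, hL, c, C, hc, hC, h⟩ := Pool.Agent.K9h29.ZD.newf_off (by norm_num) hf'
  have H : ∀ p : ℕ, p.Prime → ¬ (p : ℤ) ∣ 2 * (4 * a ^ 3 + 27 * b ^ 2) →
      ¬ p ∣ N ∧ coef f p = ((W165.CE.ap0 a b p : ℤ) : ℂ) := fun p hp h => hf.points p hp h
  refine ⟨fun q s => ∏ᶠ χ : DirichletCharacter ℂ q, L χ.conductor χ.primitiveCharacter (s - 1 / 2), ?_,
    c, C, hc, hC, ?_⟩
  · intro q hq hqM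
    have : NeZero q := ⟨by omega⟩
    simp_rw [finprod_eq_prod_of_fintype]
    refine ⟨?_, ?_⟩
    · have h1 : ∀ χ ∈ (Finset.univ : Finset (DirichletCharacter ℂ q)),
          Differentiable ℂ (fun s : ℂ => L χ.conductor χ.primitiveCharacter (s - 1 / 2)) := by
        intro χ _
        have h2 := (hL χ.conductor χ.primitiveCharacter (Nat.one_le_iff_ne_zero.2 χ.conductor_ne_zero)
          (Nat.Coprime.coprime_dvd_left χ.conductor_dvd_level hqM) χ.primitiveCharacter_isPrimitive).1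
        exact h2.comp (by fun_prop)
      exact Differentiable.fun_finsetProd h1
    · intro K _ _ _ s hs
      have h2 := W165.CE.hasProd_euler hE H (fun q χ s => L q χ (s - 1 / 2)) (by
        intro q χ h1 h2 h3 s hs
        have h4 := (hL q χ h1 h2 h3).2.2.2 (s - 1 / 2) (by
          have : (s - 1 / 2 : ℂ).re = s.re - 1 / 2 := by simp
          rw [this]; linarith)
        refine (congrArg (fun g => HasProd g (L q χ (s - 1 / 2))) (funext fun p => ?_)).mpr h4
        exact eul_shift f hf.real q χ s p p.2) q hqM K s hs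
      refine (congrArg (fun g => HasProd g _) (funext fun v => ?_)).mpr h2
      exact factor_eq_lib a b f s v
  · intro q hq hqM T δ hT hδ
    have : NeZero q := ⟨by omega⟩
    have hG : ∀ χ : DirichletCharacter ℂ q, Differentiable ℂ (L χ.conductor χ.primitiveCharacter) ∧
        (∀ z, analyticOrderAt (L χ.conductor χ.primitiveCharacter) z ≠ ⊤) ∧
        (∀ W : Set ℂ, Bornology.IsBounded W →
          {s | s ∈ W ∧ L χ.conductor χ.primitiveCharacter s = 0}.Finite) := by
      intro χ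
      have h2 := hL χ.conductor χ.primitiveCharacter (Nat.one_le_iff_ne_zero.2 χ.conductor_ne_zero)
        (Nat.Coprime.coprime_dvd_left χ.conductor_dvd_level hqM) χ.primitiveCharacter_isPrimitive
      exact ⟨h2.1, h2.2.1, h2.2.2.1⟩
    have hfin : ∀ χ : DirichletCharacter ℂ q,
        {s | s ∈ Pool.Agent.K9h29.ZD.off δ T ∧ L χ.conductor χ.primitiveCharacter s = 0}.Finite :=
      fun χ => (hG χ).2.2 _ (Pool.Agent.K9h29.ZD.off_bdd δ T)
    have e1 : (fun s : ℂ => ∏ᶠ χ : DirichletCharacter ℂ q, L χ.conductor χ.primitiveCharacter (s - 1 / 2)) =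
        fun s : ℂ => (fun z : ℂ => ∏ χ : DirichletCharacter ℂ q, L χ.conductor χ.primitiveCharacter z) (s - 1 / 2) := by
      funext s
      exact finprod_eq_prod_of_fintype _
    have e2 := cnt_prod Finset.univ (fun χ : DirichletCharacter ℂ q => L χ.conductor χ.primitiveCharacter)
        (W := Pool.Agent.K9h29.ZD.off δ T) (fun χ _ s _ => (hG χ).1.analyticAt s) (fun χ _ s _ => (hG χ).2.1 s)
        (fun χ _ => hfin χ)
    beta_reduce
    constructor
    · rw [e1, Off_shift (fun z : ℂ => ∏ χ : DirichletCharacter ℂ q, L χ.conductor χ.primitiveCharacter z) δ T]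
      apply Set.Finite.image
      refine (Set.finite_iUnion hfin).subset ?_
      rintro s ⟨h1, h2⟩
      rw [Finset.prod_eq_zero_iff] at h2
      obtain ⟨χ, _, hχ⟩ := h2
      exact Set.mem_iUnion.2 ⟨χ, h1, hχ⟩
    · rw [e1, num_shift (fun z : ℂ => ∏ χ : DirichletCharacter ℂ q, L χ.conductor χ.primitiveCharacter z) δ T, e2]
      have h3 := h q hq hqM T δ hT hδ
      unfold SS at h3
      rw [finsum_eq_sum_of_fintype] at h3
      push_cast
      exact h3

end Pool.Agent.Results.MP_fb225e_nt.CyclotomicZeroDensity
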