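import Pool.Agent.K9h29.RD.Crv
import Pool.Agent.N784.HC.Exi
import Pool.Agent.W164.RC.Bad

/-!
# Density of the zeros of `L(E/K, s)` near the line `Re s = 1`, for the ray class fields `K` of an
arbitrary number field containing `i`, in windows of bounded height

`E_D : y² = x³ - D x` (`D` an integer, for example `D = 1`), `M` is ANY number field containing `i`, of
any degree `d`, and `K` is the narrow ray class field of `M` whose modulus is an arbitrary nonzero ideal
`𝔮` divisible by `2 + 2i`; it is assumed that `D` is a fourth power in `K`.  Let `U(𝔮)` be the number of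
the residue classes modulo `𝔮` which contain a unit of `M`.

We prove, without any hypothesis: let `1/2 < h ≤ 1` and `0 < c < 2h - 1`.  There is a constant `A`,
which depends only on `M`, `h` and `c`, such that for all `𝔮` and `K` as above, for all `T`, `H`, `t`
with `1 ≤ H ≤ T`, `|t| ≤ T` and `(N(𝔮) T^d)^h ≤ N(𝔮)`, and for every `δ ≥ 0`, the number of the zeros of
`L(E_D/K, s)` (with multiplicity) in the window `t ≤ Im s ≤ t + H` of the half plane `Re s > 1/2`, whose
distance from the line `Re s = 1` is at least `δ`, is at most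

  `A [K : M] U(𝔮) H log(X) X^(-c δ)`,   `X = N(𝔮) T^d`.

The number of all the zeros in the window is of the order `[K : M] H log(X)` (for `H` larger than a
constant), so nothing is lost at the scale `1 / log X` except the factor `U(𝔮)`: the proportion of the
zeros whose distance from the critical line is at least `φ / log X` is `O(U(𝔮) exp(-c φ))`.  For
`M = ℚ(i)` one has `U(𝔮) ≤ 4`; in every `M` there are infinitely many `𝔮` with `U(𝔮) ≤ N(𝔮)^δ₀`, for every
`δ₀ > 0`, divisible by any given ideal.  The height may be bounded (`T = 1` is allowed), the field `K` is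
not averaged over, and it is in general not abelian over `ℚ(i)`.

Moreover the order of vanishing of `L(E_D/K, s)` at `s = 1` is at most `A [K : ℚ] (1 + log U(𝔮))`.

Proof.  (1) The law of decomposition in `K/M` from the Artin map, Gauss' count of the points of
`y² = x³ - x`, and the Hecke character of this curve over `M`: the Euler factors of `E_D` at the places
of `K` above a prime of `M` prime to `𝔮` are those of all Hecke L-functions `L(s - 1/2, ψχ)` and their
conjugates, `χ` the characters of the narrow ray class group modulo `𝔮` (files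
`Pool.Agent.N833.CZ.Glue` and those named there).  (2) The density theorem for the primitive Hecke
characters of an arbitrary infinity type (`Pool.Agent.N784.CZ.Den`: smooth mollification without
loss, the large sieve inequality for the characters modulo `𝔮` and the windows of the height, the
functional equation, Jensen's formula), for the type of `ψ` and for the conjugate type.  (3) The
functional equation in the critical strip, the real points included, for the zeros to the left of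
the critical line (`Pool.Agent.K9h29.RD.Sym`).  (4) The characters modulo `𝔮` of conductor one, of which
there are at most `h(M)`: their zeros are few compared to `U(𝔮) [K : M]`, which is at least `φ(𝔮)`
(`Pool.Agent.K9h29.RD.Fam`).  (5) Nonvanishing for `Re s ≥ 1` of all these L-functions.  (6) The central
orders: `Pool.Agent.N784.CZ.Fin`.
-/

set_option autoImplicit false

open Complex NumberField IsDedekindDomain

namespace Pool.Agent.Results.MP_fb225e_nt.EveryNumberFieldDensity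

/-- `K` is the (narrow) ray class field of `M` of modulus `𝔮`: `ι` embeds the ring of integers of `M`
into that of `K`, and `art` is the Artin map (used only for the ideals prime to `𝔮`), with values in
the automorphisms of the ring of integers of `K` (equivalently, of `K`), such that
* `art` is multiplicative,
* the integers of `M` are the invariants (so `K/M` is Galois and `art` is surjective onto its group),
* the kernel consists of the ideals `𝔞` with `(a) 𝔞 = (b)` for some totally positive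
  `a, b ≡ 1 mod 𝔮` (so the Galois group is the narrow ray class group modulo `𝔮`),
* `K/M` is unramified outside `𝔮`: the inertia group at every prime `v` of `K` not dividing `𝔮` is
  trivial,
* for every prime ideal `𝔭` not dividing `𝔮`, `art 𝔭` is the Frobenius automorphism
  `x ↦ x ^ N(𝔭)` at all primes `v` of `K` above `𝔭`. -/
structure IsRayClassField {M : Type} [Field M] [NumberField M] (𝔮 : Ideal (𝓞 M)) (K : Type)
    [Field K] [NumberField K] (ι : 𝓞 M →+* 𝓞 K) (art : Ideal (𝓞 M) → (𝓞 K ≃+* 𝓞 K)) : Prop where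
  mul : ∀ 𝔞 𝔟 : Ideal (𝓞 M), IsCoprime 𝔞 𝔮 → IsCoprime 𝔟 𝔮 → art (𝔞 * 𝔟) = art 𝔞 * art 𝔟
  invariants : ∀ x : 𝓞 K, (∀ 𝔞 : Ideal (𝓞 M), IsCoprime 𝔞 𝔮 → art 𝔞 x = x) ↔ x ∈ ι.range
  kernel : ∀ 𝔞 : Ideal (𝓞 M), IsCoprime 𝔞 𝔮 → (art 𝔞 = 1 ↔ ∃ a b : 𝓞 M, a - 1 ∈ 𝔮 ∧ b - 1 ∈ 𝔮 ∧
    (∀ τ : M →+* ℝ, 0 < τ a) ∧ (∀ τ : M →+* ℝ, 0 < τ b) ∧ Ideal.span {a} * 𝔞 = Ideal.span {b})
  unramified : ∀ v : HeightOneSpectrum (𝓞 K), ¬ 𝔮.map ι ≤ v.asIdeal →
    ∀ 𝔞 : Ideal (𝓞 M), IsCoprime 𝔞 𝔮 → (∀ x, art 𝔞 x - x ∈ v.asIdeal) → art 𝔞 = 1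
  frobenius : ∀ 𝔭 : Ideal (𝓞 M), 𝔭.IsPrime → IsCoprime 𝔭 𝔮 → ∀ v : HeightOneSpectrum (𝓞 K),
    𝔭.map ι ≤ v.asIdeal → ∀ x : 𝓞 K, art 𝔭 x - x ^ Ideal.absNorm 𝔭 ∈ v.asIdeal

/-- `1 - a n^(-s) + ε n^(1-2s)` -/
noncomputable def localPoly (a ε : ℤ) (n : ℕ) (s : ℂ) : ℂ :=
  1 - (a : ℂ) * (n : ℂ) ^ (-s) + (ε : ℂ) * (n : ℂ) ^ (1 - 2 * s)

/-- the `(a, ε)` which are possible for the Euler factor `(1 - a n^(-s) + ε n^(1-2s))⁻¹` of an
elliptic curve at a place with `n` residue classes: `ε = 1` and `a² ≤ 4 n` (good reduction, Hasse) or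
`ε = 0` and `a ∈ {-1, 0, 1}` (bad reduction) -/
def Possible (n : ℕ) (a ε : ℤ) : Prop := (ε = 1 ∧ a ^ 2 ≤ 4 * (n : ℤ)) ∨ (ε = 0 ∧ a ^ 2 ≤ 1)

section

variable {M : Type} [Field M] [NumberField M] {K : Type} [Field K] [NumberField K]

/-- the places of `K` dividing `𝔮` or `D` -/
def exceptional (𝔮 : Ideal (𝓞 M)) (ι : 𝓞 M →+* 𝓞 K) (D : 𝓞 K) : Set (HeightOneSpectrum (𝓞 K)) :=
  {v | 𝔮.map ι ≤ v.asIdeal ∨ D ∈ v.asIdeal}

open Classical in
/-- The Euler factor at `v` of `y² = x³ - D x`.  If `v` does not divide `𝔮 D` (then it does not divide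
`2 D`, the reduction is good) it is `(1 - a_v (Nv)^(-s) + (Nv)^(1-2s))⁻¹`, where `a_v` is `Nv` minus
the number of affine solutions `(x, y)` of the equation over the residue field `𝓞 K / v`; for the
finitely many other places it is the factor given by `(a v, ε v)`. -/
noncomputable def factor (𝔮 : Ideal (𝓞 M)) (ι : 𝓞 M →+* 𝓞 K) (D : 𝓞 K)
    (a ε : HeightOneSpectrum (𝓞 K) → ℤ) (s : ℂ) (v : HeightOneSpectrum (𝓞 K)) : ℂ :=
  if v ∈ exceptional 𝔮 ι D then (localPoly (a v) (ε v) (Ideal.absNorm v.asIdeal) s)⁻¹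
  else (localPoly (((Ideal.absNorm v.asIdeal : ℕ) : ℤ) -
      ((Nat.card {p : (𝓞 K ⧸ v.asIdeal) × (𝓞 K ⧸ v.asIdeal) //
        p.2 ^ 2 = p.1 ^ 3 - Ideal.Quotient.mk v.asIdeal D * p.1} : ℕ) : ℤ)) 1
      (Ideal.absNorm v.asIdeal) s)⁻¹

/-- the number of residue classes modulo `𝔮` which contain a unit of `M` -/
noncomputable def unitClasses (𝔮 : Ideal (𝓞 M)) : ℕ :=
  (Set.range (fun u : (𝓞 M)ˣ => Ideal.Quotient.mk 𝔮 (u : 𝓞 M))).ncard

end

/-- The zeros of `F` with `Re s > 1/2` and `t ≤ Im s ≤ t + H` whose distance from the line `Re s = 1` is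
at least `δ`. -/
def farZeros (F : ℂ → ℂ) (δ t H : ℝ) : Set ℂ :=
  {s : ℂ | 1 / 2 < s.re ∧ δ ≤ |s.re - 1| ∧ t ≤ s.im ∧ s.im ≤ t + H ∧ F s = 0}

/-- The number of these zeros, counted with multiplicity. -/
noncomputable def numFar (F : ℂ → ℂ) (δ t H : ℝ) : ℕ :=
  ∑ᶠ s ∈ farZeros F δ t H, analyticOrderNatAt F s

/-- `L` is the L-function of `E_D : y² = x³ - D x` over `K`, with the Euler factors given by `α`, `β`
at the places dividing `𝔮 D`: it is analytic for `Re s > 1/2`, for `Re s > 3/2` it is the product over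
all places of `K` of the Euler factors, and its product with the (finitely many) local polynomials at
the places dividing `𝔮 D` is entire -/
structure IsLFunction {M : Type} [Field M] [NumberField M] (𝔮 : Ideal (𝓞 M)) {K : Type} [Field K]
    [NumberField K] (ι : 𝓞 M →+* 𝓞 K) (D : 𝓞 K) (α β : HeightOneSpectrum (𝓞 K) → ℤ)
    (L : ℂ → ℂ) : Prop where
  analytic : AnalyticOnNhd ℂ L {s : ℂ | 1 / 2 < s.re}
  euler : ∀ s : ℂ, 3 / 2 < s.re → HasProd (factor 𝔮 ι D α β s) (L s)
  finite : (exceptional 𝔮 ι D).Finite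
  entire : ∃ F : ℂ → ℂ, Differentiable ℂ F ∧ ∀ s : ℂ, 1 / 2 < s.re →
    F s = L s * ∏ᶠ v ∈ exceptional 𝔮 ι D, localPoly (α v) (β v) (Ideal.absNorm v.asIdeal) s

/-- For `1 ≤ H ≤ T`, `|t| ≤ T` and `(N(𝔮) T^d)^h ≤ N(𝔮)`, `d = [M : ℚ]`, and for every `δ ≥ 0` the zeros of
`L` with `Re s > 1/2`, `|Re s - 1| ≥ δ`, `t ≤ Im s ≤ t + H` are finite in number, and their number
(with multiplicity) is at most `A [K : M] U(𝔮) H log(N(𝔮) T^d) (N(𝔮) T^d)^(-c δ)`. -/
def ZerosNearLine {M : Type} [Field M] [NumberField M] (𝔮 : Ideal (𝓞 M)) (K : Type) [Field K]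
    [NumberField K] (L : ℂ → ℂ) (A h c : ℝ) : Prop :=
  ∀ T H t δ : ℝ, 1 ≤ H → H ≤ T → |t| ≤ T → 0 ≤ δ →
    ((Ideal.absNorm 𝔮 : ℝ) * T ^ Module.finrank ℚ M) ^ h ≤ (Ideal.absNorm 𝔮 : ℝ) →
    (farZeros L δ t H).Finite ∧
    (numFar L δ t H : ℝ) ≤ A * ((Module.finrank ℚ K : ℝ) / (Module.finrank ℚ M : ℝ) *
      (unitClasses 𝔮 : ℝ) * H * Real.log ((Ideal.absNorm 𝔮 : ℝ) * T ^ Module.finrank ℚ M) *
      ((Ideal.absNorm 𝔮 : ℝ) * T ^ Module.finrank ℚ M) ^ (-(c * δ)))

/-- **Main theorem.** Let `M` be a number field which contains `i` (given by an embedding `ι₀` of `ℤ[i]`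
into the integers of `M`), and let `h ≤ 1`, `0 < c < 2h - 1`.  There is a constant `A` such that for
every ideal `𝔮 ≠ 0` of `M` which is divisible by `2 + 2i`, for the narrow ray class field `K` of `M` of
modulus `𝔮` and every integer `D ≠ 0` of `K` with a fourth root in `K`, for every choice of possible
Euler factors at the finitely many places dividing `𝔮 D` (for example the ones of
`E_D : y² = x³ - D x`) there is the L-function `L`, its order of vanishing at `s = 1` is at most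
`A [K : ℚ] (1 + log U(𝔮))`, and the bounds `ZerosNearLine` hold for its zeros.
Moreover, for all `δ > 0` there are arbitrarily large multiples `𝔮` of every ideal for which the units
occupy at most `N(𝔮)^δ` residue classes. -/
theorem result :
    (∀ (M : Type) [Field M] [NumberField M] (ι₀ : GaussianInt →+* 𝓞 M) (h c : ℝ),
      h ≤ 1 → 0 < c → c < 2 * h - 1 →
      ∃ A : ℝ, 1 ≤ A ∧ ∀ 𝔮 : Ideal (𝓞 M), 𝔮 ≠ ⊥ → 𝔮 ≤ Ideal.span {ι₀ ⟨2, 2⟩} →
      ∀ (K : Type) [Field K] [NumberField K] (ι : 𝓞 M →+* 𝓞 K)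
        (art : Ideal (𝓞 M) → (𝓞 K ≃+* 𝓞 K)), IsRayClassField 𝔮 K ι art →
      ∀ D : 𝓞 K, D ≠ 0 → (∃ x : 𝓞 K, x ^ 4 = D) →
      ∀ α β : HeightOneSpectrum (𝓞 K) → ℤ,
        (∀ v ∈ exceptional 𝔮 ι D, Possible (Ideal.absNorm v.asIdeal) (α v) (β v)) →
      ∃ L : ℂ → ℂ, IsLFunction 𝔮 ι D α β L ∧
        (analyticOrderNatAt L 1 : ℝ) ≤
          A * (Module.finrank ℚ K * (1 + Real.log (unitClasses 𝔮))) ∧
        ZerosNearLine 𝔮 K L A h c) ∧
    ∀ (M : Type) [Field M] [NumberField M] (𝔪 : Ideal (𝓞 M)) (δ B : ℝ), 𝔪 ≠ ⊥ → 0 < δ →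
      ∃ 𝔮 : Ideal (𝓞 M), 𝔮 ≠ ⊥ ∧ 𝔪 ∣ 𝔮 ∧
        B ≤ (Ideal.absNorm 𝔮 : ℝ) ∧ (unitClasses 𝔮 : ℝ) ≤ (Ideal.absNorm 𝔮 : ℝ) ^ δ := by
  classical
  refine ⟨?_, fun M _ _ 𝔪 δ B hm hδ => Pool.Agent.N784.HC.exists_modM M hm δ B hδ⟩
  intro M _ _ ι₀ h c hh1 hc0 hc
  obtain ⟨A, hA, H0⟩ := Pool.Agent.K9h29.RD.crv_den M ι₀ h c hh1 hc0 hc
  refine ⟨A, hA, fun 𝔮 hbot hle K _ _ ι art hK D hD hd α β hpos => ?_⟩
  have hK' : Pool.Agent.N784.CZ.IsRCF 𝔮 K ι art :=
    ⟨hK.mul, hK.invariants, hK.kernel, hK.unramified, hK.frobenius⟩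
  obtain ⟨F, hF, hprod, hcen, hzero⟩ := H0 𝔮 hbot hle K ι art hK'
  obtain ⟨d, hd⟩ := hd
  obtain ⟨x, hx, hx0⟩ := Submodule.exists_mem_ne_zero_of_ne_bot hbot
  have hιx : ι x ≠ 0 := fun h => hx0 (Pool.Agent.N784.CZ.ran_inj ι (by rw [h, map_zero]))
  have hfin : (exceptional 𝔮 ι D).Finite := by
    refine ((Pool.Agent.W164.RC.places_finite hιx).subset ?_).union
      (Pool.Agent.W164.RC.places_finite hD)
    intro v hv
    exact hv (Ideal.mem_map_of_mem ι hx)
  set S : Finset (HeightOneSpectrum (𝓞 K)) := hfin.toFinset with hS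
  have hmemS : ∀ v, v ∈ S ↔ v ∈ exceptional 𝔮 ι D := fun v => by rw [hS]; simp
  have hn2 : ∀ v : HeightOneSpectrum (𝓞 K), 2 ≤ Ideal.absNorm v.asIdeal :=
    fun v => Pool.Agent.H921R2.TatePole.two_le_nm v
  have hlp : ∀ (a ε : ℤ) (n : ℕ) (s : ℂ), localPoly a ε n s = Pool.Agent.W164.RC.lpoly a ε n s :=
    fun _ _ _ _ => rfl
  -- places over two
  have htwo : ∀ v : HeightOneSpectrum (𝓞 K), ¬ 𝔮.map ι ≤ v.asIdeal →
      (Pool.Agent.H921R2.TatePole.below v : ℕ) ≠ 2 :=
    fun v hv hb => hv (Pool.Agent.N833.CZ.le_of_two hle v hb)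
  -- the numerator at the exceptional places not dividing `𝔮`
  set g : HeightOneSpectrum (𝓞 K) → ℂ → ℂ := fun v s =>
    if 𝔮.map ι ≤ v.asIdeal then 1
    else Pool.Agent.W164.RC.lpoly (Pool.Agent.W164.RC.tr v) 1 (Ideal.absNorm v.asIdeal) s with hg
  have hgdiff : ∀ v, Differentiable ℂ (g v) := by
    intro v
    rw [hg]
    by_cases h : 𝔮.map ι ≤ v.asIdeal
    · simp only [if_pos h]
      exact differentiable_const _
    · simp only [if_neg h]
      exact Pool.Agent.W164.RC.lpoly_diff _ _ (hn2 v)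
  have hgne : ∀ v (s : ℂ), 1 / 2 < s.re → g v s ≠ 0 := by
    intro v s hs
    rw [hg]
    by_cases h : 𝔮.map ι ≤ v.asIdeal
    · simp only [if_pos h]
      exact one_ne_zero
    · simp only [if_neg h]
      exact Pool.Agent.W164.RC.lpoly_ne (hn2 v) (Pool.Agent.W164.RC.tr_poss v (htwo v h)) hs
  set P : HeightOneSpectrum (𝓞 K) → ℂ → ℂ := fun v s =>
    Pool.Agent.W164.RC.lpoly (α v) (β v) (Ideal.absNorm v.asIdeal) s with hP
  have hPdiff : ∀ v, Differentiable ℂ (P v) := fun v => Pool.Agent.W164.RC.lpoly_diff _ _ (hn2 v)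
  have hPne : ∀ v ∈ S, ∀ s : ℂ, 1 / 2 < s.re → P v s ≠ 0 := by
    intro v hv s hs
    exact Pool.Agent.W164.RC.lpoly_ne (hn2 v) (hpos v ((hmemS v).1 hv)) hs
  set R : ℂ → ℂ := fun s => ∏ v ∈ S, (g v s * (P v s)⁻¹) with hR
  have hRan : ∀ s : ℂ, 1 / 2 < s.re → AnalyticAt ℂ R s := by
    intro s hs
    rw [hR]
    apply Finset.analyticAt_fun_prod
    intro v hv
    exact ((hgdiff v).analyticAt s).mul (((hPdiff v).analyticAt s).inv (hPne v hv s hs))
  have hRne : ∀ s : ℂ, 1 / 2 < s.re → R s ≠ 0 := by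
    intro s hs
    rw [hR]
    simp only
    rw [Finset.prod_ne_zero_iff]
    intro v hv
    exact mul_ne_zero (hgne v s hs) (inv_ne_zero (hPne v hv s hs))
  have hord : ∀ s : ℂ, 1 / 2 < s.re →
      analyticOrderNatAt (fun s => F s * R s) s = analyticOrderNatAt F s := by
    intro s hs
    unfold analyticOrderNatAt
    rw [Pool.Agent.W164.RC.order_mul_ne (hF.analyticAt s) (hRan s hs) (hRne s hs)]
  refine ⟨fun s => F s * R s, ⟨?_, ?_, hfin, ?_⟩, ?_, ?_⟩
  · intro s hs
    exact (hF.analyticAt s).mul (hRan s hs)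
  · intro s hs
    have hs' : 1 / 2 < s.re := by linarith
    have h3 : HasProd (fun v : HeightOneSpectrum (𝓞 K) =>
        if v ∈ S then g v s * (P v s)⁻¹ else 1) (R s) := by
      have h4 : R s = ∏ v ∈ S, (if v ∈ S then g v s * (P v s)⁻¹ else 1) := by
        rw [hR]
        exact Finset.prod_congr rfl fun v hv => by rw [if_pos hv]
      rw [h4]
      apply hasProd_prod_of_ne_finset_one
      intro v hv
      rw [if_neg hv]
    have h5 := (hprod s hs).mul h3
    refine h5.congr_fun ?_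
    intro v
    unfold factor
    by_cases hv : v ∈ exceptional 𝔮 ι D
    · rw [if_pos hv, if_pos ((hmemS v).2 hv), hlp]
      have hg1 := hgne v s hs'
      by_cases hvq : 𝔮.map ι ≤ v.asIdeal
      · rw [if_pos hvq]
        have : g v s = 1 := by rw [hg]; simp only [if_pos hvq]
        rw [this, one_mul, one_mul]
      · rw [if_neg hvq, Pool.Agent.W164.RC.eulerFactor_lpoly]
        have : g v s = Pool.Agent.W164.RC.lpoly (Pool.Agent.W164.RC.tr v) 1
            (Ideal.absNorm v.asIdeal) s := by rw [hg]; simp only [if_neg hvq]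
        rw [← this, ← mul_assoc, inv_mul_cancel₀ hg1, one_mul]
    · have hvS : v ∉ S := fun h => hv ((hmemS v).1 h)
      have hvq : ¬ 𝔮.map ι ≤ v.asIdeal := fun h => hv (Or.inl h)
      have hvD : D ∉ v.asIdeal := fun h => hv (Or.inr h)
      rw [if_neg hv, if_neg hvS, if_neg hvq, mul_one, Pool.Agent.W164.RC.eulerFactor_lpoly, hlp]
      have hmax : v.asIdeal.IsMaximal := v.isPrime.isMaximal v.ne_bot
      let _ : Field (𝓞 K ⧸ v.asIdeal) := Ideal.Quotient.field v.asIdeal
      have hd4 : (Ideal.Quotient.mk v.asIdeal d) ^ 4 = Ideal.Quotient.mk v.asIdeal D := by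
        rw [← map_pow, hd]
      have hd0 : Ideal.Quotient.mk v.asIdeal d ≠ 0 := by
        intro h0
        rw [h0, zero_pow (by norm_num)] at hd4
        apply hvD
        rw [← Ideal.Quotient.eq_zero_iff_mem]
        exact hd4.symm
      have hct := Pool.Agent.W164.RC.card_twist (Ideal.Quotient.mk v.asIdeal d) hd0
      rw [hd4] at hct
      rw [hct]
      rfl
  · refine ⟨fun s => F s * ∏ v ∈ S, g v s, ?_, ?_⟩
    · exact hF.mul (Differentiable.fun_finsetProd fun v _ => hgdiff v)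
    · intro s hs
      have h3 : ∏ᶠ v ∈ exceptional 𝔮 ι D, localPoly (α v) (β v) (Ideal.absNorm v.asIdeal) s =
          ∏ v ∈ S, P v s := by
        rw [← finprod_mem_coe_finset]
        have : (S : Set (HeightOneSpectrum (𝓞 K))) = exceptional 𝔮 ι D := by
          ext v
          exact hmemS v
        rw [this]
        rfl
      rw [h3]
      show F s * ∏ v ∈ S, g v s = F s * R s * ∏ v ∈ S, P v s
      rw [hR, mul_assoc, ← Finset.prod_mul_distrib]
      congr 1
      refine Finset.prod_congr rfl fun v hv => ?_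
      rw [mul_assoc, inv_mul_cancel₀ (hPne v hv s hs), mul_one]
  · have h1 : analyticOrderNatAt (fun s => F s * R s) 1 = analyticOrderNatAt F 1 :=
      hord 1 (by norm_num)
    rw [h1]
    exact hcen
  · intro T H t δ hH hHT ht hδ hX
    obtain ⟨c1, c2⟩ := hzero T H hH hHT hX t ht δ hδ
    have hset : farZeros (fun s => F s * R s) δ t H =
        {s : ℂ | s ∈ Pool.Agent.K9h29.RD.rg δ t H ∧ F s = 0} := by
      ext s
      constructor
      · rintro ⟨h1, h2, h3, h4, h5⟩
        exact ⟨⟨h1, h2, h3, h4⟩, (mul_eq_zero.1 h5).resolve_right (hRne s h1)⟩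
      · rintro ⟨⟨h1, h2, h3, h4⟩, h5⟩
        refine ⟨h1, h2, h3, h4, ?_⟩
        show F s * R s = 0
        rw [h5, zero_mul]
    have hnum : numFar (fun s => F s * R s) δ t H =
        Pool.Agent.H82R3.EK.cnt F (Pool.Agent.K9h29.RD.rg δ t H) := by
      unfold numFar Pool.Agent.H82R3.EK.cnt
      rw [hset]
      exact finsum_mem_congr rfl fun s hs => hord s hs.1.1
    rw [hset, hnum]
    exact ⟨c1, c2⟩

end Pool.Agent.Results.MP_fb225e_nt.EveryNumberFieldDensity
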