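import Pool.Agent.K9h52.HY.Sh
import Pool.Agent.W165.CE.Euler

/-!
# `L(E/ℚ(ζ_q), s)`: the density hypothesis outside extremal clusters, uniformly in `q`

`E : y² = x³ + a x + b` is an elliptic curve over `ℚ` with newform `f ∈ S_2(Γ₀(N))`. For every `q` prime to
`N` the L-function of `E` over `K = ℚ(ζ_q)` is the product of the `L(E ⊗ χ, s)` over the primitive
characters `χ` of conductor dividing `q`. We give an unconditional upper bound for the number of zeros of
`L(E/K, s)` with real part at least `σ`, `1 ≤ σ ≤ 3/2`, in a segment of length `H` up to height `T`: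
`(q T)^ε (q H)^(2(3/2-σ))` (the density hypothesis for the whole family, in short segments), and the number of the
extremal clusters of the `L(E ⊗ χ, s)`: unit segments near which there is a vertical edge such that there are
almost no zeros right of it in a long window, the density of the zeros at the edge is almost linear on
every scale, and `L(E ⊗ χ, s)` is large at the edge on every scale.

The proof: a local alternative at every zero of one L-function (`Pool.Agent.K9h52.HY.Dich`), made uniform in the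
L-function; detection of the zeros by Taylor coefficients of the mollified L-function at centres with real part 2
(`HY.Det`, `HY.DetC`); the hybrid mean value theorem for powers of short Dirichlet polynomials twisted by all
characters modulo `q` (`HY.LVF`, `Pool.Agent.K9h99.HMV`); uniform growth of the twists (`Pool.Agent.K9h63.EC`). The
arithmetic of the cyclotomic fields is that of the starting modules `Pool.Agent.H82R3.EK`, `Pool.Agent.W165.CE`.
-/

set_option autoImplicit false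

open Complex NumberField IsDedekindDomain UpperHalfPlane MatrixGroups CongruenceSubgroup

namespace Pool.Agent.Results.MP_fb225e_nt.ExtremalClusters

/-- The coefficient `a_p` of `E : y² = x³ + a x + b` at a prime `p ∤ 2 (4a³ + 27b²)`: `p` minus the
number of pairs `(x, y)` modulo `p` with `y² = x³ + a x + b`. -/
noncomputable def ap (a b : ℤ) (p : ℕ) : ℤ :=
  (p : ℤ) - Nat.card {x : ZMod p × ZMod p //
    x.2 ^ 2 = x.1 ^ 3 + (a : ZMod p) * x.1 + (b : ZMod p)}

/-- The `n`-th Fourier coefficient of `f`. -/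
noncomputable def coef {N : ℕ} (f : CuspForm (Gamma0 N : Subgroup (GL (Fin 2) ℝ)) 2) (n : ℕ) : ℂ :=
  (qExpansion 1 f).coeff n

/-- `f ∈ S_2(Γ₀(N))` is the newform of the elliptic curve `E : y² = x³ + a x + b` of conductor `N` and
root number `w`: the Fourier coefficients `c(n)` of `f` are real with `c(1) = 1`, they satisfy the
Hecke relations `c(mn) = c(m) c(n)` for coprime `m`, `n` and `c(p^(j+2)) = c(p) c(p^(j+1)) - p c(p^j)`
(without the last term if `p ∣ N`), `f(-1/(Nτ)) = -w N τ² f(τ)`, all primes `p ∤ 2 (4a³ + 27b²)` have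
`p ∤ N` and `c(p) = a_p(E)`, `|c(p)| ≤ 2 √p` for all `p ∤ N` (Hasse) and `c(p) = 0, 1, -1` for
`p ∣ N`. -/
structure IsFormOf (a b : ℤ) (N : ℕ) (f : CuspForm (Gamma0 N : Subgroup (GL (Fin 2) ℝ)) 2) (w : ℝ) :
    Prop where
  one : coef f 1 = 1
  real : ∀ n, (coef f n).im = 0
  mul : ∀ m n : ℕ, Nat.Coprime m n → coef f (m * n) = coef f m * coef f n
  pow : ∀ p j : ℕ, p.Prime → coef f (p ^ (j + 2)) = coef f p * coef f (p ^ (j + 1)) -
      (if p ∣ N then 0 else (p : ℂ) * coef f (p ^ j))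
  sign : w = 1 ∨ w = -1
  fricke : ∀ τ τ' : ℍ, (τ' : ℂ) * ((N : ℂ) * (τ : ℂ)) = -1 →
    f τ' = -(w : ℂ) * (N : ℂ) * (τ : ℂ) ^ 2 * f τ
  points : ∀ p : ℕ, p.Prime → ¬ (p : ℤ) ∣ 2 * (4 * a ^ 3 + 27 * b ^ 2) →
    ¬ p ∣ N ∧ coef f p = (ap a b p : ℂ)
  good : ∀ p : ℕ, p.Prime → ¬ p ∣ N → ‖coef f p‖ ≤ 2 * Real.sqrt p
  bad : ∀ p : ℕ, p.Prime → p ∣ N → coef f p = 0 ∨ coef f p = 1 ∨ coef f p = -1

/-- `pw t u n = α ^ n + β ^ n`, where `α`, `β` are the roots of `X² - t X + u`. -/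
noncomputable def pw (t u : ℂ) : ℕ → ℂ
  | 0 => 2
  | 1 => t
  | n + 2 => t * pw t u (n + 1) - u * pw t u n

section
variable {K : Type} [Field K] [NumberField K]

/-- The number `a_v` of `E : y² = x³ + a x + b` at a prime `v` of `K`: `Nv` minus the number of affine
solutions `(x, y)` of the equation over the residue field `𝓞 K / v`. -/
noncomputable def av (a b : ℤ) (v : HeightOneSpectrum (𝓞 K)) : ℤ :=
  ((Ideal.absNorm v.asIdeal : ℕ) : ℤ) -
    ((Nat.card {x : (𝓞 K ⧸ v.asIdeal) × (𝓞 K ⧸ v.asIdeal) //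
      x.2 ^ 2 = x.1 ^ 3 + (a : 𝓞 K ⧸ v.asIdeal) * x.1 + (b : 𝓞 K ⧸ v.asIdeal)} : ℕ) : ℤ)

open Classical in
/-- The local factor of `L(E/K, s)` at the prime `v` of `K`.  If `v ∤ 2 (4a³ + 27b²)`, it is
`(1 - a_v (Nv)^(-s) + (Nv)^(1-2s))⁻¹`.  If `v ∣ 2 (4a³ + 27b²)` and `Nv = p ^ d` with `p` prime, it is
`(1 - (α^d + β^d) (Nv)^(-s) + (Nv)^(1-2s))⁻¹` for `p ∤ N`, where `α`, `β` are the roots of
`X² - c(p) X + p`, and `(1 - c(p)^d (Nv)^(-s))⁻¹` for `p ∣ N`. -/
noncomputable def factor (a b : ℤ) {N : ℕ} (f : CuspForm (Gamma0 N : Subgroup (GL (Fin 2) ℝ)) 2)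
    (s : ℂ) (v : HeightOneSpectrum (𝓞 K)) : ℂ :=
  if ((2 * (4 * a ^ 3 + 27 * b ^ 2) : ℤ) : 𝓞 K) ∈ v.asIdeal then
    (1 - pw (coef f (Ideal.absNorm v.asIdeal).minFac)
          (if (Ideal.absNorm v.asIdeal).minFac ∣ N then 0 else ((Ideal.absNorm v.asIdeal).minFac : ℂ))
          ((Ideal.absNorm v.asIdeal).factorization (Ideal.absNorm v.asIdeal).minFac)
          * ((Ideal.absNorm v.asIdeal : ℕ) : ℂ) ^ (-s)
      + (if (Ideal.absNorm v.asIdeal).minFac ∣ N then (0 : ℂ) else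
          ((Ideal.absNorm v.asIdeal : ℕ) : ℂ) ^ (1 - 2 * s)))⁻¹
  else
    (1 - ((av a b v : ℤ) : ℂ) * ((Ideal.absNorm v.asIdeal : ℕ) : ℂ) ^ (-s)
      + ((Ideal.absNorm v.asIdeal : ℕ) : ℂ) ^ (1 - 2 * s))⁻¹

end

/-- The product over all characters `χ` modulo `q` of the functions `L χ*`, where `χ*` is the primitive
character of `χ`. -/
noncomputable def LK (L : (q : ℕ) → DirichletCharacter ℂ q → ℂ → ℂ) (q : ℕ) [NeZero q] (s : ℂ) : ℂ :=
  ∏ χ : DirichletCharacter ℂ q, L χ.conductor χ.primitiveCharacter s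

/-- The number of the elements of a set `S` of zeros of `F`, counted with multiplicity. -/
noncomputable def count (F : ℂ → ℂ) (S : Set ℂ) : ℕ := ∑ᶠ s ∈ S, analyticOrderNatAt F s

/-- The zeros of `F` with real part at least `σ` and height in `(U, V]`. -/
def zeros (F : ℂ → ℂ) (σ U V : ℝ) : Set ℂ := {s : ℂ | F s = 0 ∧ σ ≤ s.re ∧ U < s.im ∧ s.im ≤ V}

/-- `F` has an extremal cluster with edge at `w`:
(i) every segment of height 2 with centre `b`, `|b - Im w| ≤ B`, contains at most `η log X` zeros with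
real part at least `Re w + τ`;
(ii) for every `h` in `[h₀, 1/10]` some disc of radius `h` with centre on the line through `w`, at
distance at most `√h` from `w`, contains at least `c ε h / log(1/(εh))⁴ · log X` zeros;
(iii) for every `δ` in `[h₀, 1/10]` there is a point `z` with `|Re z - Re w| ≤ δ`,
`|Im z - Im w| ≤ 2 √δ` and `|F(z)| ≥ X^(ε δ / 8000)`. -/
def Extremal (c ε h₀ τ η B X : ℝ) (F : ℂ → ℂ) (w : ℂ) : Prop :=
  (∀ b : ℝ, |b - w.im| ≤ B →
    (count F {s : ℂ | F s = 0 ∧ w.re + τ ≤ s.re ∧ |s.im - b| ≤ 1} : ℝ) ≤ η * Real.log X) ∧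
  (∀ h : ℝ, h₀ ≤ h → h ≤ 1 / 10 → ∃ b : ℝ, |b - w.im| ≤ Real.sqrt h ∧
    c * (ε * h) / (Real.log (1 / (ε * h))) ^ 4 * Real.log X ≤
      count F {s : ℂ | F s = 0 ∧ ‖s - ⟨w.re, b⟩‖ ≤ h}) ∧
  (∀ δ : ℝ, h₀ ≤ δ → δ ≤ 1 / 10 → ∃ z : ℂ, |z.re - w.re| ≤ δ ∧ |z.im - w.im| ≤ 2 * Real.sqrt δ ∧
    X ^ (ε / 8000 * δ) ≤ ‖F z‖)

/-- The number of the pairs of a character `χ` modulo `q` and a unit segment `[n, n+1]`, `V₁ ≤ n ≤ V₂`,
with an extremal cluster of `L χ` of real part at least `σ`. -/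
noncomputable def clusters {q : ℕ} (L : DirichletCharacter ℂ q → ℂ → ℂ)
    (c ε h₀ τ η B X σ V₁ V₂ : ℝ) : ℕ :=
  {p : DirichletCharacter ℂ q × ℤ | V₁ ≤ p.2 ∧ (p.2 : ℝ) ≤ V₂ ∧ ∃ w : ℂ, σ ≤ w.re ∧
    (p.2 : ℝ) ≤ w.im ∧ w.im ≤ p.2 + 1 ∧ Extremal c ε h₀ τ η B X (L p.1) w}.ncard

theorem pw_eq_lib (t u : ℂ) : ∀ n : ℕ, pw t u n = W165.CE.pw t u n
  | 0 => rfl
  | 1 => rfl
  | n + 2 => by
    rw [pw, W165.CE.pw, pw_eq_lib t u (n + 1), pw_eq_lib t u n]

theorem factor_eq_lib (a b : ℤ) {N : ℕ} (f : CuspForm (Gamma0 N : Subgroup (GL (Fin 2) ℝ)) 2)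
    {K : Type} [Field K] [NumberField K] (s : ℂ) (v : HeightOneSpectrum (𝓞 K)) :
    factor a b f s v = W165.CE.fac a b N (coef f) s v := by
  unfold factor W165.CE.fac
  rw [pw_eq_lib]
  rfl

open Pool.Agent.K9h52.HY in
/-- **Main theorem.** There is an absolute constant `c > 0` such that for every elliptic curve
`E : y² = x³ + a x + b` over `ℚ` with newform `f ∈ S_2(Γ₀(N))`: for all primitive characters `χ` modulo `q`,
`q` prime to `N`, there are entire functions `L q χ = L(E ⊗ χ, s)`, equal to `∑ χ(n) c(n) n^(-s)` for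
`Re s > 3/2`; for `q` prime to `N` and `K = ℚ(ζ_q)` the product `LK L q` is `L(E/K, s)`, i.e. for `Re s > 3/2` it is the
Euler product over all primes `v` of `K` of the local factors of `E`; and for `0 < ε ≤ 1` and
`h₀, τ, η > 0` there are `A`, `C`, `X₀` such that for all `q` prime to `N`, `T ≥ 1` with `q T ≥ X₀`, `1 ≤ B ≤ T`,
`-T ≤ U`, `H ≥ 1`, `U + H ≤ T` and `1 ≤ σ ≤ 3/2` the number of zeros of `L(E/K, s)` with real part at least `σ` and
height in `(U, U + H]` is at most `C B² (q T)^ε (q H)^(3 - 2σ)` plus `C B log (q T)` times the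
number of pairs of a character `χ` modulo `q` and a unit segment `[n, n+1]`, `U - A B ≤ n ≤ U + H + A B`, with an
extremal cluster of `L(E ⊗ χ*, s)` of real part at least `σ - τ`. -/
theorem result : ∃ c : ℝ, 0 < c ∧
    ∀ (a b : ℤ) (N : ℕ) [NeZero N] (f : CuspForm (Gamma0 N : Subgroup (GL (Fin 2) ℝ)) 2) (w : ℝ),
    4 * a ^ 3 + 27 * b ^ 2 ≠ 0 → IsFormOf a b N f w →
    ∃ L : (q : ℕ) → DirichletCharacter ℂ q → ℂ → ℂ,
      (∀ (q : ℕ) (χ : DirichletCharacter ℂ q), 1 ≤ q → Nat.Coprime q N → χ.IsPrimitive →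
        Differentiable ℂ (L q χ) ∧ ∀ s : ℂ, 3 / 2 < s.re →
          L q χ s = ∑' n : ℕ, χ (n : ZMod q) * coef f n * (n : ℂ) ^ (-s)) ∧
      (∀ (q : ℕ) [NeZero q], Nat.Coprime q N →
        ∀ (K : Type) [Field K] [NumberField K] [IsCyclotomicExtension {q} ℚ K] (s : ℂ), 3 / 2 < s.re →
          HasProd (fun v : HeightOneSpectrum (𝓞 K) => factor a b f s v) (LK L q s)) ∧
      ∀ ε h₀ τ η : ℝ, 0 < ε → ε ≤ 1 → 0 < h₀ → 0 < τ → 0 < η →
      ∃ A C X₀ : ℝ, 0 < A ∧ 0 < C ∧ ∀ (q : ℕ) [NeZero q], Nat.Coprime q N →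
        ∀ T : ℝ, 1 ≤ T → X₀ ≤ q * T → ∀ B : ℝ, 1 ≤ B → B ≤ T →
        ∀ U H : ℝ, -T ≤ U → 1 ≤ H → U + H ≤ T → ∀ σ : ℝ, 1 ≤ σ → σ ≤ 3 / 2 →
        (count (LK L q) (zeros (LK L q) σ U (U + H)) : ℝ) ≤
          C * (B ^ 2 * (q * T) ^ ε * (q * H) ^ (3 - 2 * σ)) +
          C * (B * Real.log (q * T) *
            clusters (fun χ : DirichletCharacter ℂ q => L χ.conductor χ.primitiveCharacter)
              c ε h₀ τ η B (q * T) (σ - τ) (U - A * B) (U + H + A * B)) := by
  refine ⟨Pool.Agent.K9h52.DX.c0 / 1024, by have := Pool.Agent.K9h52.DX.c0_pos; positivity, ?_⟩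
  intro a b N _ f w hE hf
  have hf' : Pool.Agent.W169.HF.IsForm N f w :=
    { one := hf.one
      real := hf.real
      mul := hf.mul
      pow := hf.pow
      sign := hf.sign
      fricke := hf.fricke
      good := hf.good
      bad := fun p hp hpN => by
        have h1 : (1 : ℝ) ≤ Real.sqrt p := by
          rw [Real.one_le_sqrt]
          exact_mod_cast hp.one_le
        have h2 : ‖coef f p‖ ≤ 1 := by
          rcases hf.bad p hp hpN with h | h | h <;> simp [h]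
        exact h2.trans h1 }
  obtain ⟨Φ, a', b', Ag, L0, hΦ, hAg, hsa, hsb, h1, h2⟩ := ec_family Pool.Agent.K9h63.EC.ec hf'
  refine ⟨fun q χ s => L0 q χ (s - 1 / 2), ?_, ?_, ?_⟩
  · intro q χ hq hqN hχ
    obtain ⟨g1, g2⟩ := h1 q χ hq hqN hχ
    refine ⟨g1.comp (by fun_prop), fun s hs => ?_⟩
    exact (g2 s hs).2
  · intro q _ hqN K _ _ _ s hs
    have h3 := W165.CE.hasProd_euler hE (N := N) (c := coef f)
      (fun p hp h => hf.points p hp h) (fun q χ s => L0 q χ (s - 1 / 2)) (by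
        intro q χ g1 g2 g3 s hs
        exact ((h1 q χ g1 g2 g3).2 s hs).1) q hqN K s hs
    refine (congrArg (fun g => HasProd g _) (funext fun v => ?_)).mpr h3
    exact factor_eq_lib a b f s v
  · intro ε h₀ τ η hε hε1 hh₀ hτ hη
    obtain ⟨A, C, X₀, hA, hC, h3⟩ := fin_fam Pool.Agent.K9h99.HMV.hmv hΦ hsa hsb hAg hε hε1 hh₀ hτ hη
    refine ⟨A, C, X₀, hA, hC, ?_⟩
    intro q _ hqN T hT hX B hB1 hBT U H hU hH1 hUH σ hσ1 hσ2
    have h4 := h3 q (fun χ => L0 χ.conductor χ.primitiveCharacter) (fun χ => (h2 q hqN χ).1)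
      (fun χ => (h2 q hqN χ).2) T hT hX B hB1 hBT U H hU hH1 hUH (σ - 1 / 2) (by linarith)
      (by linarith)
    have e1 : (count (LK (fun q χ s => L0 q χ (s - 1 / 2)) q)
        (zeros (LK (fun q χ s => L0 q χ (s - 1 / 2)) q) σ U (U + H)) : ℝ) =
        ∑ χ : DirichletCharacter ℂ q, (cntF (L0 χ.conductor χ.primitiveCharacter)
          {ρ : ℂ | L0 χ.conductor χ.primitiveCharacter ρ = 0 ∧ σ - 1 / 2 ≤ ρ.re ∧ U < ρ.im ∧
            ρ.im ≤ U + H} : ℝ) := by
      have e2 := cntF_prod (fun χ : DirichletCharacter ℂ q => L0 χ.conductor χ.primitiveCharacter)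
        (fun χ => ((h2 q hqN χ).1).ez hΦ) (σ - 1 / 2) U (U + H)
      have e3 := cntF_sh (fun s => ∏ χ : DirichletCharacter ℂ q, L0 χ.conductor χ.primitiveCharacter s)
        (S := {s : ℂ | ∏ χ : DirichletCharacter ℂ q, L0 χ.conductor χ.primitiveCharacter s = 0 ∧
          σ - 1 / 2 ≤ s.re ∧ U < s.im ∧ s.im ≤ U + H})
        (S' := zeros (LK (fun q χ s => L0 q χ (s - 1 / 2)) q) σ U (U + H)) (by
          intro s
          have e1 : (s - 1 / 2 : ℂ).re = s.re - 1 / 2 := by simp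
          have e2 : (s - 1 / 2 : ℂ).im = s.im := by simp
          unfold zeros LK
          simp only [Set.mem_setOf_eq, e1, e2]
          constructor
          · rintro ⟨a1, a2, a3⟩
            exact ⟨a1, by linarith, a3⟩
          · rintro ⟨a1, a2, a3⟩
            exact ⟨a1, by linarith, a3⟩)
      have e4 : count (LK (fun q χ s => L0 q χ (s - 1 / 2)) q)
          (zeros (LK (fun q χ s => L0 q χ (s - 1 / 2)) q) σ U (U + H)) =
          ∑ χ : DirichletCharacter ℂ q, cntF (L0 χ.conductor χ.primitiveCharacter)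
          {ρ : ℂ | L0 χ.conductor χ.primitiveCharacter ρ = 0 ∧ σ - 1 / 2 ≤ ρ.re ∧ U < ρ.im ∧
            ρ.im ≤ U + H} := by
        rw [← e2]
        exact e3
      rw [e4]
      push_cast
      rfl
    rw [e1]
    have e5 : 2 * (1 - (σ - 1 / 2)) = 3 - 2 * σ := by ring
    rw [e5] at h4
    refine h4.trans (add_le_add le_rfl ?_)
    have e6 : (cluX (fun χ : DirichletCharacter ℂ q => L0 χ.conductor χ.primitiveCharacter)
        (Pool.Agent.K9h52.DX.c0 / 1024) ε h₀ τ η B (q * T) (σ - 1 / 2 - τ) (U - A * B)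
        (U + H + A * B)).ncard ≤
        clusters (fun χ : DirichletCharacter ℂ q => fun s => L0 χ.conductor χ.primitiveCharacter (s - 1 / 2))
          (Pool.Agent.K9h52.DX.c0 / 1024) ε h₀ τ η B (q * T) (σ - τ) (U - A * B) (U + H + A * B) := by
      unfold clusters
      apply Set.ncard_le_ncard
      · rintro ⟨χ, n⟩ ⟨g1, g2, w', g3, g4, g5, g6⟩
        refine ⟨g1, g2, w' + 1 / 2, ?_, ?_, ?_, g6.sh⟩
        · have : (w' + 1 / 2 : ℂ).re = w'.re + 1 / 2 := by simp
          rw [this]; linarith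
        · have : (w' + 1 / 2 : ℂ).im = w'.im := by simp
          rw [this]; exact g4
        · have : (w' + 1 / 2 : ℂ).im = w'.im := by simp
          rw [this]; exact g5
      · refine (Set.finite_univ.prod (Set.finite_Icc ⌈U - A * B⌉ ⌊U + H + A * B⌋)).subset ?_
        rintro ⟨χ, n⟩ ⟨g1, g2, -⟩
        exact ⟨Set.mem_univ _, Int.ceil_le.2 g1, Int.le_floor.2 g2⟩
    have e7 : ((cluX (fun χ : DirichletCharacter ℂ q => L0 χ.conductor χ.primitiveCharacter)
        (Pool.Agent.K9h52.DX.c0 / 1024) ε h₀ τ η B (q * T) (σ - 1 / 2 - τ) (U - A * B)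
        (U + H + A * B)).ncard : ℝ) ≤
        (clusters (fun χ : DirichletCharacter ℂ q => fun s =>
          L0 χ.conductor χ.primitiveCharacter (s - 1 / 2))
          (Pool.Agent.K9h52.DX.c0 / 1024) ε h₀ τ η B (q * T) (σ - τ) (U - A * B)
          (U + H + A * B) : ℝ) := by
      exact_mod_cast e6
    have hq1 : (1 : ℝ) ≤ q := by
      exact_mod_cast Nat.one_le_iff_ne_zero.2 (NeZero.ne q)
    have hlog : 0 ≤ Real.log (q * T) := Real.log_nonneg (by nlinarith)
    gcongr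

end Pool.Agent.Results.MP_fb225e_nt.ExtremalClusters
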