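import Pool.Agent.K9h29.SP.Fin
import Pool.Agent.W165.CE.Euler

/-!
# A positive proportion of the zeros of `L(E/K, s)` on the line `Re s = 1`, uniformly in the field `K`

`E : y² = x³ + a x + b` is any elliptic curve over `ℚ` (with or without complex multiplication), `N`
is its conductor and `f ∈ S_2(Γ₀(N))` is its newform.  For every `q ≥ 1` prime to `N` let `K` be a subfield of
`ℚ(ζ_q)`, given by its group `G` of Dirichlet characters modulo `q` (`G = ⊤` for `K = ℚ(ζ_q)`, `card G = [K : ℚ]`).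

For every `ε > 0` there are `c > 0` and `T₀`, depending on `E` and `ε` only, such that for EVERY `q ≥ 1` prime to `N`,
every subfield `K` of `ℚ(ζ_q)` of degree at least `ε φ(q)` and all `T ≥ T₀`, at least `c` times the number of all the zeros
of `L(E/K, s)` with `0 < Im s ≤ T` lie on the line `Re s = 1`, and the number of these zeros is at least
`c [K : ℚ] T log (q T)`.  In particular there are `c > 0` and `T₀` depending on `E` only which are good for all
cyclotomic fields `ℚ(ζ_q)`, `q` prime to `N`.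

Proof: Selberg's method, with mean values over the characters modulo `q`.  `L(E/K, s)` is the product of the `L`-functions
of the twists of `f` by the primitive characters associated with the characters in `G`.  For a primitive `χ` modulo `q` let
`H_χ(t)` be the completed `L`-function at `1/2 + i t` (analytic normalisation) times the exponential factor of Titchmarsh
and the square of the modulus of Selberg's mollifier `∑ χ(h) α(h) h^(-1/2 - i t)`, `h ≤ (q T) ^ κ`, of the inverse square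
root of the `L`-function.  `H_χ` is real up to a constant factor. Its mean square over `χ` and over the heights
`t ≍ T`, and the mean square of its integrals over intervals of length `≍ 1 / log (q T)`, are bounded with the Fourier
transform (the form `f` along rays which end at the points `j / q`), Selberg's diagonalisation of the quadratic form of
the mollifier, and Jutila's circle method for the shifted convolution sums, all uniform in `q`; the mean of
`|H_χ|` is bounded from below by moving the line of integration, with a Gaussian weight whose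
width depends on the density of the set of characters.  Where the integral of `H_χ` over a short interval is smaller than
that of `|H_χ|`, there is a zero of the `L`-function on the line.  The shifted convolution sums for a single newform are
those of the starting modules `Pool.Agent.Y671.GL`, `Pool.Agent.Y412` (helper671, helper412); here they are uniform in the
modulus (`Pool.Agent.K9h29.ZD`), and Selberg's method is carried out in `Pool.Agent.K9h29.SP` (helper29). The arithmetic of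
the cyclotomic fields is that of the starting modules `Pool.Agent.H82R3.EK` and `Pool.Agent.W165.CE`.
-/

set_option autoImplicit false

open Complex NumberField IsDedekindDomain UpperHalfPlane MatrixGroups CongruenceSubgroup

namespace Pool.Agent.Results.MP_fb225e_nt.PositiveProportion

/-- The coefficient `a_p` of `E : y² = x³ + a x + b` at a prime `p ∤ 2 (4a³ + 27b²)`: `p` minus the
number of pairs `(x, y)` modulo `p` with `y² = x³ + a x + b`. -/
noncomputable def ap (a b : ℤ) (p : ℕ) : ℤ :=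
  (p : ℤ) - Nat.card {x : ZMod p × ZMod p //
    x.2 ^ 2 = x.1 ^ 3 + (a : ZMod p) * x.1 + (b : ZMod p)}

/-- The `n`-th Fourier coefficient of `f`. -/
noncomputable def coef {N : ℕ} (f : CuspForm (Gamma0 N : Subgroup (GL (Fin 2) ℝ)) 2) (n : ℕ) : ℂ :=
  (qExpansion 1 f).coeff n

/-- `f ∈ S_2(Γ₀(N))` is the newform of the elliptic curve `E : y² = x³ + a x + b`: the Fourier
coefficients `c(n)` of `f` are real with `c(1) = 1`, they satisfy the Hecke relations
`c(mn) = c(m) c(n)` for coprime `m`, `n` and `c(p^(j+2)) = c(p) c(p^(j+1)) - p c(p^j)` (without the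
last term if `p ∣ N`), `f` is an eigenfunction of the Fricke involution:
`f(-1/(Nτ)) = -w N τ² f(τ)` with `w = ±1`, and for all primes `p ∤ 2 (4a³ + 27b²)` one has `p ∤ N`
and `c(p) = a_p(E)`. -/
structure IsFormOf (a b : ℤ) (N : ℕ) (f : CuspForm (Gamma0 N : Subgroup (GL (Fin 2) ℝ)) 2) :
    Prop where
  one : coef f 1 = 1
  real : ∀ n, (coef f n).im = 0
  mul : ∀ m n : ℕ, Nat.Coprime m n → coef f (m * n) = coef f m * coef f n
  pow : ∀ p j : ℕ, p.Prime → coef f (p ^ (j + 2)) = coef f p * coef f (p ^ (j + 1)) -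
      (if p ∣ N then 0 else (p : ℂ) * coef f (p ^ j))
  fricke : ∃ w : ℝ, (w = 1 ∨ w = -1) ∧ ∀ τ τ' : ℍ, (τ' : ℂ) * ((N : ℂ) * (τ : ℂ)) = -1 →
    f τ' = -(w : ℂ) * (N : ℂ) * (τ : ℂ) ^ 2 * f τ
  points : ∀ p : ℕ, p.Prime → ¬ (p : ℤ) ∣ 2 * (4 * a ^ 3 + 27 * b ^ 2) →
    ¬ p ∣ N ∧ coef f p = (ap a b p : ℂ)

/-- The local factor at the prime `p` of the `L`-function of the twist of `E` by the character `χ` modulo `q`,
`q` prime to `N`: `(1 - χ(p) c(p) p^(-s) + χ(p)² p^(1-2s))⁻¹`, without the last term if `p ∣ N`. -/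
noncomputable def tfac {N : ℕ} (f : CuspForm (Gamma0 N : Subgroup (GL (Fin 2) ℝ)) 2) {q : ℕ}
    (χ : DirichletCharacter ℂ q) (s : ℂ) (p : ℕ) : ℂ :=
  (1 - χ (p : ZMod q) * coef f p * (p : ℂ) ^ (-s) +
    (if p ∣ N then 0 else χ (p : ZMod q) ^ 2 * (p : ℂ) ^ (1 - 2 * s)))⁻¹

/-- `pw t u n = α ^ n + β ^ n`, where `α`, `β` are the roots of `X² - t X + u`. -/
noncomputable def pw (t u : ℂ) : ℕ → ℂ
  | 0 => 2
  | 1 => t
  | n + 2 => t * pw t u (n + 1) - u * pw t u n

section
variable {K : Type} [Field K] [NumberField K]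

/-- The number `a_v` of `E : y² = x³ + a x + b` at a prime `v` of `K`: `Nv` minus the number of affine
solutions `(x, y)` of the equation over the residue field `𝓞 K / v`. -/
noncomputable def av (a b : ℤ) (v : HeightOneSpectrum (𝓞 K)) : ℤ :=
  ((Ideal.absNorm v.asIdeal : ℕ) : ℤ) -
    ((Nat.card {x : (𝓞 K ⧸ v.asIdeal) × (𝓞 K ⧸ v.asIdeal) //
      x.2 ^ 2 = x.1 ^ 3 + (a : 𝓞 K ⧸ v.asIdeal) * x.1 + (b : 𝓞 K ⧸ v.asIdeal)} : ℕ) : ℤ)

open Classical in
/-- The local factor of `L(E/K, s)` at the prime `v` of `K`.  If `v ∤ 2 (4a³ + 27b²)`, it is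
`(1 - a_v (Nv)^(-s) + (Nv)^(1-2s))⁻¹`.  If `v ∣ 2 (4a³ + 27b²)` and `Nv = p ^ d` with `p` prime, it is
`(1 - (α^d + β^d) (Nv)^(-s) + (Nv)^(1-2s))⁻¹` for `p ∤ N`, where `α`, `β` are the roots of
`X² - c(p) X + p`, and `(1 - c(p)^d (Nv)^(-s))⁻¹` for `p ∣ N`. -/
noncomputable def factor (a b : ℤ) {N : ℕ} (f : CuspForm (Gamma0 N : Subgroup (GL (Fin 2) ℝ)) 2)
    (s : ℂ) (v : HeightOneSpectrum (𝓞 K)) : ℂ :=
  if ((2 * (4 * a ^ 3 + 27 * b ^ 2) : ℤ) : 𝓞 K) ∈ v.asIdeal then
    (1 - pw (coef f (Ideal.absNorm v.asIdeal).minFac)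
          (if (Ideal.absNorm v.asIdeal).minFac ∣ N then 0 else ((Ideal.absNorm v.asIdeal).minFac : ℂ))
          ((Ideal.absNorm v.asIdeal).factorization (Ideal.absNorm v.asIdeal).minFac)
          * ((Ideal.absNorm v.asIdeal : ℕ) : ℂ) ^ (-s)
      + (if (Ideal.absNorm v.asIdeal).minFac ∣ N then (0 : ℂ) else
          ((Ideal.absNorm v.asIdeal : ℕ) : ℂ) ^ (1 - 2 * s)))⁻¹
  else
    (1 - ((av a b v : ℤ) : ℂ) * ((Ideal.absNorm v.asIdeal : ℕ) : ℂ) ^ (-s)
      + ((Ideal.absNorm v.asIdeal : ℕ) : ℂ) ^ (1 - 2 * s))⁻¹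

end

/-- The zeros of `F` in the critical strip with imaginary part in `(0, T]`. -/
def Strip (F : ℂ → ℂ) (T : ℝ) : Set ℂ :=
  {s : ℂ | 1 / 2 < s.re ∧ s.re < 3 / 2 ∧ 0 < s.im ∧ s.im ≤ T ∧ F s = 0}

/-- The zeros of `F` on the critical line with imaginary part in `(0, T]`. -/
def Line (F : ℂ → ℂ) (T : ℝ) : Set ℂ := {s : ℂ | s.re = 1 ∧ 0 < s.im ∧ s.im ≤ T ∧ F s = 0}

/-- The number of the points of `A`, each counted with its multiplicity as a zero of `F`. -/
noncomputable def num (F : ℂ → ℂ) (A : Set ℂ) : ℕ := ∑ᶠ s ∈ A, analyticOrderNatAt F s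

/-! ### Translation from the analytic normalisation -/

theorem order_shift (L : ℂ → ℂ) (s : ℂ) :
    analyticOrderNatAt (fun z => L (z - 1 / 2)) (s + 1 / 2) = analyticOrderNatAt L s := by
  have hg : AnalyticAt ℂ (fun z : ℂ => z - 1 / 2) (s + 1 / 2) := by fun_prop
  have hd : deriv (fun z : ℂ => z - 1 / 2) (s + 1 / 2) ≠ 0 := by
    simp
  have h := analyticOrderAt_comp_of_deriv_ne_zero (f := L) hg hd
  unfold analyticOrderNatAt
  have h2 : (fun z : ℂ => L (z - 1 / 2)) = L ∘ (fun z : ℂ => z - 1 / 2) := rfl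
  rw [h2, h]
  norm_num

theorem inj_shift : Function.Injective (fun s : ℂ => s + 1 / 2) := fun a b h => by
  simpa using h

theorem num_shift (L : ℂ → ℂ) {A B : Set ℂ} (h : A = (fun s : ℂ => s + 1 / 2) '' {s : ℂ | s ∈ B ∧ L s = 0}) :
    num (fun z => L (z - 1 / 2)) A = Pool.Agent.H82R3.EK.cnt L B := by
  unfold num Pool.Agent.H82R3.EK.cnt
  rw [h, finsum_mem_image (inj_shift.injOn)]
  refine finsum_congr fun s => finsum_congr fun _ => ?_
  exact order_shift L s

theorem Strip_shift (L : ℂ → ℂ) (T : ℝ) :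
    Strip (fun z => L (z - 1 / 2)) T =
      (fun s : ℂ => s + 1 / 2) '' {s : ℂ | s ∈ Pool.Agent.K9h29.SP.stp T ∧ L s = 0} := by
  ext s
  constructor
  · rintro ⟨h1, h2, h3, h4, h5⟩
    refine ⟨s - 1 / 2, ⟨⟨?_, ?_, ?_, ?_⟩, h5⟩, by ring⟩
    · simp; linarith
    · simp; linarith
    · simpa using h3
    · simpa using h4
  · rintro ⟨t, ⟨⟨h1, h2, h3, h4⟩, h5⟩, rfl⟩
    refine ⟨?_, ?_, ?_, ?_, ?_⟩
    · simp; linarith
    · simp; linarith
    · simpa using h3
    · simpa using h4
    · simp only [add_sub_cancel_right]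
      exact h5

theorem Line_shift (L : ℂ → ℂ) (T : ℝ) :
    Line (fun z => L (z - 1 / 2)) T =
      (fun s : ℂ => s + 1 / 2) '' {s : ℂ | s ∈ Pool.Agent.K9h29.SP.lin T ∧ L s = 0} := by
  ext s
  constructor
  · rintro ⟨h1, h3, h4, h5⟩
    refine ⟨s - 1 / 2, ⟨⟨?_, ?_, ?_⟩, h5⟩, by ring⟩
    · simp; linarith
    · simpa using h3
    · simpa using h4
  · rintro ⟨t, ⟨⟨h1, h3, h4⟩, h5⟩, rfl⟩
    refine ⟨?_, ?_, ?_, ?_⟩
    · simp; linarith
    · simpa using h3
    · simpa using h4
    · simp only [add_sub_cancel_right]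
      exact h5

theorem lamf_eq {N : ℕ} (f : CuspForm (Gamma0 N : Subgroup (GL (Fin 2) ℝ)) 2)
    (hr : ∀ n, (coef f n).im = 0) (p : ℕ) (hp : p.Prime) (s : ℂ) :
    (W388.lamf f p : ℂ) * (p : ℂ) ^ (-(s - 1 / 2)) = coef f p * (p : ℂ) ^ (-s) := by
  have hp0 : (0 : ℝ) < p := by exact_mod_cast hp.pos
  have hpc : (p : ℂ) ≠ 0 := by exact_mod_cast hp.ne_zero
  have hc : coef f p = ((coef f p).re : ℂ) := by
    apply Complex.ext
    · simp
    · simp [hr p]
  unfold W388.lamf
  rw [hc]
  unfold coef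
  rw [show -(s - 1 / 2) = -s + (1 / 2 : ℂ) by ring, Complex.cpow_add _ _ hpc]
  push_cast
  rw [Complex.ofReal_cpow hp0.le]
  have e : ((((2 : ℝ) - 1) / 2 : ℝ) : ℂ) = (1 / 2 : ℂ) := by push_cast; norm_num
  rw [e]
  have hne : (p : ℂ) ^ (1 / 2 : ℂ) ≠ 0 := by
    rw [Ne, Complex.cpow_eq_zero_iff]
    exact fun h => hpc h.1
  rw [Complex.ofReal_natCast]
  field_simp

theorem tfac_eq_lib {N : ℕ} (f : CuspForm (Gamma0 N : Subgroup (GL (Fin 2) ℝ)) 2) {q : ℕ}
    (χ : DirichletCharacter ℂ q) (s : ℂ) (p : ℕ) (hp : p.Prime) :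
    tfac f χ s p = W165.CE.eul N (coef f) q χ s p := by
  unfold tfac W165.CE.eul
  rw [Pool.Agent.H82R3.EK.prime_cpow p hp.ne_zero s]
  split_ifs with h
  · rw [zero_mul, mul_zero]
  · rfl

theorem eul_shift {N : ℕ} (f : CuspForm (Gamma0 N : Subgroup (GL (Fin 2) ℝ)) 2)
    (hr : ∀ n, (coef f n).im = 0) (q : ℕ)
    (χ : DirichletCharacter ℂ q) (s : ℂ) (p : ℕ) (hp : p.Prime) :
    W165.CE.eul N (coef f) q χ s p =
      (1 - χ (p : ZMod q) * (W388.lamf f p : ℂ) * (p : ℂ) ^ (-(s - 1 / 2)) +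
      (if p ∣ N then 0 else χ (p : ZMod q) ^ 2 * (p : ℂ) ^ (-2 * (s - 1 / 2))))⁻¹ := by
  unfold W165.CE.eul
  rw [mul_assoc (χ (p : ZMod q)) (W388.lamf f p : ℂ), lamf_eq f hr p hp s,
    mul_assoc (χ (p : ZMod q)) (coef f p), show (-2 * (s - 1 / 2) : ℂ) = 1 - 2 * s by ring,
    Pool.Agent.H82R3.EK.prime_cpow p hp.ne_zero s]
  split_ifs with h
  · rw [zero_mul, mul_zero]
  · rfl

theorem pw_eq_lib (t u : ℂ) : ∀ n : ℕ, pw t u n = W165.CE.pw t u n
  | 0 => rfl
  | 1 => rfl
  | n + 2 => by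
    rw [pw, W165.CE.pw, pw_eq_lib t u (n + 1), pw_eq_lib t u n]

theorem factor_eq_lib (a b : ℤ) {N : ℕ} (f : CuspForm (Gamma0 N : Subgroup (GL (Fin 2) ℝ)) 2)
    {K : Type} [Field K] [NumberField K] (s : ℂ) (v : HeightOneSpectrum (𝓞 K)) :
    factor a b f s v = W165.CE.fac a b N (coef f) s v := by
  unfold factor W165.CE.fac
  rw [pw_eq_lib]
  rfl

/-- Hasse's bound for the normalised coefficients -/
theorem lam_two {a b : ℤ} (hE : 4 * a ^ 3 + 27 * b ^ 2 ≠ 0) {N : ℕ}
    {f : CuspForm (Gamma0 N : Subgroup (GL (Fin 2) ℝ)) 2} (hf : IsFormOf a b N f) (p : ℕ) (hp : p.Prime)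
    (hpP : (2 * (4 * a ^ 3 + 27 * b ^ 2)).natAbs + 2 < p) : ‖(W388.lamf f p : ℂ)‖ ≤ 2 := by
  have hp0 : (0 : ℝ) < p := by exact_mod_cast hp.pos
  haveI : Fact p.Prime := ⟨hp⟩
  have hnd : ¬ (p : ℤ) ∣ 2 * (4 * a ^ 3 + 27 * b ^ 2) := by
    intro h
    have h1 := Int.natAbs_dvd_natAbs.2 h
    rw [Int.natAbs_natCast] at h1
    have h2 : 0 < (2 * (4 * a ^ 3 + 27 * b ^ 2)).natAbs := Int.natAbs_pos.2 (mul_ne_zero two_ne_zero hE)
    have := Nat.le_of_dvd h2 h1
    omega
  have h1 := (hf.points p hp hnd).2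
  have h2 : |((ap a b p : ℤ) : ℝ)| ≤ 2 * Real.sqrt p := by
    have hchar : ringChar (ZMod p) ≠ 2 := by
      rw [ZMod.ringChar_zmod_n]
      omega
    have h3 := W165.CE.hasse hchar ((a : ℤ) : ZMod p) ((b : ℤ) : ZMod p)
    rw [ZMod.card] at h3
    have e : ((ap a b p : ℤ) : ℝ) = ((((p : ℕ) : ℤ) : ℝ) - ((Nat.card {x : ZMod p × ZMod p //
        x.2 ^ 2 = x.1 ^ 3 + (a : ZMod p) * x.1 + (b : ZMod p)} : ℕ) : ℝ)) := by
      unfold ap
      push_cast
      rfl
    rw [e]
    exact h3
  have hs : (0 : ℝ) < Real.sqrt p := Real.sqrt_pos.2 hp0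
  rw [Complex.norm_real, Real.norm_eq_abs]
  unfold W388.lamf
  have h4 : ((qExpansion 1 f).coeff p).re = ((ap a b p : ℤ) : ℝ) := by
    have h5 : (qExpansion 1 f).coeff p = ((ap a b p : ℤ) : ℂ) := h1
    rw [h5, Complex.intCast_re]
  rw [h4, abs_div]
  have h6 : (p : ℝ) ^ ((((2 : ℤ) : ℝ) - 1) / 2) = Real.sqrt p := by
    rw [Real.sqrt_eq_rpow]
    congr 1
    norm_num
  rw [h6, abs_of_pos hs, div_le_iff₀ hs]
  exact h2

open Pool.Agent.H82R3.EK in
/-- **Main theorem.** Let `E : y² = x³ + a x + b` be an elliptic curve over `ℚ` and let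
`f ∈ S_2(Γ₀(N))` be its newform. There are functions `L q G` such that for every `q ≥ 1` prime to `N` and
every group `G` of Dirichlet characters modulo `q` the function `L q G` is entire and is, for `Re s > 3/2`, the Euler
product over all primes `p` of the products over `χ` in `G` of the local factors of the twists of `E` by the primitive
characters associated with `χ`; for every cyclotomic field `K = ℚ(ζ_q)` the function `L q ⊤` is, for `Re s > 3/2`, the
Euler product over all primes `v` of `K` of the local factors of `E`.  There are `c > 0` and `T₀` such that for every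
`q ≥ 1` prime to `N` and all `T ≥ T₀` at least `c` times the number of all the zeros of `L q ⊤` with `1/2 < Re s < 3/2`
and `0 < Im s ≤ T` lie on the line `Re s = 1`; and for every `ε > 0` there are `c > 0` and `T₀` such
that for every `q ≥ 1` prime to `N`, every group `G` of at least `ε φ(q)` characters modulo `q` and all
`T ≥ T₀`, the same holds for `L q G`, and the number of its zeros with `Re s = 1`, `0 < Im s ≤ T` is at least
`c (card G) T log (q T)` (zeros are counted with multiplicity). -/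
theorem result (a b : ℤ) (hE : 4 * a ^ 3 + 27 * b ^ 2 ≠ 0) (N : ℕ) [NeZero N]
    (f : CuspForm (Gamma0 N : Subgroup (GL (Fin 2) ℝ)) 2) (hf : IsFormOf a b N f) :
    ∃ L : (q : ℕ) → Subgroup (DirichletCharacter ℂ q) → ℂ → ℂ,
      (∀ q : ℕ, 1 ≤ q → Nat.Coprime q N →
        (∀ G : Subgroup (DirichletCharacter ℂ q), Differentiable ℂ (L q G) ∧
          ∀ s : ℂ, 3 / 2 < s.re → HasProd (fun p : Nat.Primes =>
            ∏ᶠ χ : G, tfac f (χ : DirichletCharacter ℂ q).primitiveCharacter s p) (L q G s)) ∧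
        ∀ (K : Type) [Field K] [NumberField K] [IsCyclotomicExtension {q} ℚ K] (s : ℂ), 3 / 2 < s.re →
          HasProd (fun v : HeightOneSpectrum (𝓞 K) => factor a b f s v) (L q ⊤ s)) ∧
      (∃ c T₀ : ℝ, 0 < c ∧ ∀ q : ℕ, 1 ≤ q → Nat.Coprime q N → ∀ T : ℝ, T₀ ≤ T →
        (Strip (L q ⊤) T).Finite ∧
        c * (num (L q ⊤) (Strip (L q ⊤) T) : ℝ) ≤ (num (L q ⊤) (Line (L q ⊤) T) : ℝ)) ∧
      ∀ ε : ℝ, 0 < ε → ∃ c T₀ : ℝ, 0 < c ∧ ∀ q : ℕ, 1 ≤ q → Nat.Coprime q N →
        ∀ G : Subgroup (DirichletCharacter ℂ q), ε * Nat.totient q ≤ Nat.card G → ∀ T : ℝ, T₀ ≤ T →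
          (Strip (L q G) T).Finite ∧
          c * (num (L q G) (Strip (L q G) T) : ℝ) ≤ (num (L q G) (Line (L q G) T) : ℝ) ∧
          c * Nat.card G * T * Real.log (q * T) ≤ (num (L q G) (Line (L q G) T) : ℝ) := by
  classical
  obtain ⟨w, hw, hfr⟩ := hf.fricke
  have hN0 : (0 : ℝ) ≤ (N : ℝ) := Nat.cast_nonneg N
  have hsq : ((Real.sqrt N : ℝ) : ℂ) ^ 2 = (N : ℂ) := by
    have h1 : (Real.sqrt N) ^ 2 = (N : ℝ) := Real.sq_sqrt hN0
    exact_mod_cast congrArg (fun x : ℝ => (x : ℂ)) h1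
  have hf' : W388.IsNewf N ((2 : ℕ) : ℤ) f w := by
    refine ⟨hf.one, hf.real, hf.mul, ?_, hw, ?_⟩
    · intro p j hp
      have h1 := hf.pow p j hp
      unfold coef at h1
      rw [h1]
      norm_num
    · intro τ τ' h
      rw [hfr τ τ' h]
      congr 1
      have hI : Complex.I ^ 2 = -1 := Complex.I_sq
      have : (((Real.sqrt N : ℝ) : ℂ) * (τ : ℂ) / Complex.I) ^ (((2 : ℕ) : ℤ)) =
          -((N : ℂ) * (τ : ℂ) ^ 2) := by
        rw [zpow_natCast, div_pow, mul_pow, hsq, hI]
        ring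
      rw [this]
      ring
  obtain ⟨L, hL, C, hC, h⟩ := Pool.Agent.K9h29.SP.newf_line (P0 := (2 * (4 * a ^ 3 + 27 * b ^ 2)).natAbs + 2)
    (by norm_num) hf' (fun p hp hpP => lam_two hE hf p hp hpP)
  have H : ∀ p : ℕ, p.Prime → ¬ (p : ℤ) ∣ 2 * (4 * a ^ 3 + 27 * b ^ 2) →
      ¬ p ∣ N ∧ coef f p = ((W165.CE.ap0 a b p : ℤ) : ℂ) := fun p hp h => hf.points p hp h
  -- products over a group
  have hgrp : ∀ (q : ℕ) [NeZero q] (G : Subgroup (DirichletCharacter ℂ q)) (g : DirichletCharacter ℂ q → ℂ),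
      ∏ᶠ χ : G, g χ = ∏ χ ∈ (Finset.univ : Finset (DirichletCharacter ℂ q)).filter (fun χ => χ ∈ G), g χ := by
    intro q _ G g
    rw [finprod_eq_prod_of_fintype]
    exact (Finset.prod_subtype ((Finset.univ : Finset (DirichletCharacter ℂ q)).filter (fun χ => χ ∈ G))
      (p := fun χ => χ ∈ G) (fun x => by simp) g).symm
  have hcard : ∀ (q : ℕ) [NeZero q] (G : Subgroup (DirichletCharacter ℂ q)),
      Nat.card G = ((Finset.univ : Finset (DirichletCharacter ℂ q)).filter (fun χ => χ ∈ G)).card := by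
    intro q _ G
    rw [Nat.card_eq_fintype_card]
    exact Fintype.card_of_subtype _ (fun x => by simp)
  -- the counting
  have key : ∀ ε : ℝ, 0 < ε → ∃ c T₀ : ℝ, 0 < c ∧ ∀ q : ℕ, 1 ≤ q → Nat.Coprime q N →
        ∀ G : Subgroup (DirichletCharacter ℂ q), ε * Nat.totient q ≤ Nat.card G → ∀ T : ℝ, T₀ ≤ T →
          (Strip (fun s => ∏ᶠ χ : G, L (χ : DirichletCharacter ℂ q).conductor
            (χ : DirichletCharacter ℂ q).primitiveCharacter (s - 1 / 2)) T).Finite ∧
          c * (num (fun s => ∏ᶠ χ : G, L (χ : DirichletCharacter ℂ q).conductor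
            (χ : DirichletCharacter ℂ q).primitiveCharacter (s - 1 / 2)) (Strip (fun s => ∏ᶠ χ : G,
              L (χ : DirichletCharacter ℂ q).conductor
                (χ : DirichletCharacter ℂ q).primitiveCharacter (s - 1 / 2)) T) : ℝ) ≤
            (num (fun s => ∏ᶠ χ : G, L (χ : DirichletCharacter ℂ q).conductor
            (χ : DirichletCharacter ℂ q).primitiveCharacter (s - 1 / 2)) (Line (fun s => ∏ᶠ χ : G,
              L (χ : DirichletCharacter ℂ q).conductor
                (χ : DirichletCharacter ℂ q).primitiveCharacter (s - 1 / 2)) T) : ℝ) ∧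
          c * Nat.card G * T * Real.log (q * T) ≤
            (num (fun s => ∏ᶠ χ : G, L (χ : DirichletCharacter ℂ q).conductor
            (χ : DirichletCharacter ℂ q).primitiveCharacter (s - 1 / 2)) (Line (fun s => ∏ᶠ χ : G,
              L (χ : DirichletCharacter ℂ q).conductor
                (χ : DirichletCharacter ℂ q).primitiveCharacter (s - 1 / 2)) T) : ℝ) := by
    intro ε hε
    obtain ⟨c, T0, hc, hT0, h1⟩ := h ε hε
    refine ⟨min c (c / C), T0, lt_min hc (by positivity), ?_⟩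
    intro q hq hqM G hG T hT
    have : NeZero q := ⟨by omega⟩
    obtain ⟨GF, hGF⟩ : ∃ GF : Finset (DirichletCharacter ℂ q),
        GF = (Finset.univ : Finset (DirichletCharacter ℂ q)).filter (fun χ => χ ∈ G) := ⟨_, rfl⟩
    obtain ⟨F, hF⟩ : ∃ F : ℂ → ℂ, F = fun z : ℂ => ∏ χ ∈ GF, L χ.conductor χ.primitiveCharacter z := ⟨_, rfl⟩
    have e1 : (fun s : ℂ => ∏ᶠ χ : G, L (χ : DirichletCharacter ℂ q).conductor
            (χ : DirichletCharacter ℂ q).primitiveCharacter (s - 1 / 2)) = fun s : ℂ => F (s - 1 / 2) := by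
      funext s
      rw [hF, hGF]
      exact hgrp q G (fun χ => L χ.conductor χ.primitiveCharacter (s - 1 / 2))
    rw [e1]
    have hcG := hcard q G
    rw [← hGF] at hcG
    rw [hcG] at hG ⊢
    obtain ⟨k1, k2⟩ := h1 q hq hqM GF hG T hT
    have hprop : ∀ χ : DirichletCharacter ℂ q, Differentiable ℂ (L χ.conductor χ.primitiveCharacter) ∧
        (∀ z, analyticOrderAt (L χ.conductor χ.primitiveCharacter) z ≠ ⊤) ∧
        (∀ W : Set ℂ, Bornology.IsBounded W →
          {s | s ∈ W ∧ L χ.conductor χ.primitiveCharacter s = 0}.Finite) := by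
      intro χ
      have h2 := hL χ.conductor χ.primitiveCharacter (Nat.one_le_iff_ne_zero.2 χ.conductor_ne_zero)
        (Nat.Coprime.coprime_dvd_left χ.conductor_dvd_level hqM) χ.primitiveCharacter_isPrimitive
      exact ⟨h2.1, h2.2.1, h2.2.2.1⟩
    have hcnt : ∀ W : Set ℂ, Bornology.IsBounded W →
        ((cnt F W : ℕ) : ℝ) = ∑ χ ∈ GF, (cnt (L χ.conductor χ.primitiveCharacter) W : ℝ) := by
      intro W hW
      rw [hF, cnt_prod GF (fun χ : DirichletCharacter ℂ q => L χ.conductor χ.primitiveCharacter)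
        (W := W) (fun χ _ s _ => (hprop χ).1.analyticAt s) (fun χ _ s _ => (hprop χ).2.1 s)
        (fun χ _ => (hprop χ).2.2 W hW)]
      push_cast
      rfl
    rw [num_shift F (Strip_shift F T), num_shift F (Line_shift F T),
      hcnt _ (Pool.Agent.K9h29.SP.stp_bdd T), hcnt _ (Pool.Agent.K9h29.SP.lin_bdd T)]
    have hT00 : 0 < T := by linarith
    have hq1 : (1 : ℝ) ≤ q := by exact_mod_cast hq
    have hlog : 0 ≤ Real.log (q * T) := Real.log_nonneg (by nlinarith)
    refine ⟨?_, ?_, ?_⟩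
    · rw [Strip_shift]
      apply Set.Finite.image
      refine (Set.finite_iUnion fun χ : DirichletCharacter ℂ q =>
        (hprop χ).2.2 _ (Pool.Agent.K9h29.SP.stp_bdd T)).subset ?_
      rintro s ⟨h1, h2⟩
      rw [hF] at h2
      obtain ⟨χ, _, hχ⟩ := Finset.prod_eq_zero_iff.1 h2
      exact Set.mem_iUnion.2 ⟨χ, h1, hχ⟩
    · have h3 : (0 : ℝ) ≤ ∑ χ ∈ GF, (cnt (L χ.conductor χ.primitiveCharacter) (Pool.Agent.K9h29.SP.stp T) : ℝ) :=
        Finset.sum_nonneg fun χ _ => Nat.cast_nonneg _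
      calc _ ≤ (c / C) * ∑ χ ∈ GF, (cnt (L χ.conductor χ.primitiveCharacter) (Pool.Agent.K9h29.SP.stp T) : ℝ) :=
            mul_le_mul_of_nonneg_right (min_le_right _ _) h3
        _ ≤ (c / C) * (C * GF.card * T * Real.log (q * T)) := by gcongr
        _ = c * GF.card * T * Real.log (q * T) := by field_simp
        _ ≤ _ := k1
    · refine le_trans ?_ k1
      have := min_le_left c (c / C)
      gcongr
  refine ⟨fun q G s => ∏ᶠ χ : G, L (χ : DirichletCharacter ℂ q).conductor
      (χ : DirichletCharacter ℂ q).primitiveCharacter (s - 1 / 2), ?_, ?_, key⟩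
  · intro q hq hqM
    have : NeZero q := ⟨by omega⟩
    have hpr : ∀ χ : DirichletCharacter ℂ q, ∀ s : ℂ, 3 / 2 < s.re →
        HasProd (fun p : Nat.Primes => tfac f χ.primitiveCharacter s p)
          (L χ.conductor χ.primitiveCharacter (s - 1 / 2)) := by
      intro χ s hs
      have h4 := (hL χ.conductor χ.primitiveCharacter (Nat.one_le_iff_ne_zero.2 χ.conductor_ne_zero)
        (Nat.Coprime.coprime_dvd_left χ.conductor_dvd_level hqM) χ.primitiveCharacter_isPrimitive).2.2.2 (s - 1 / 2) (by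
          have : (s - 1 / 2 : ℂ).re = s.re - 1 / 2 := by simp
          rw [this]; linarith)
      refine (congrArg (fun g => HasProd g (L χ.conductor χ.primitiveCharacter (s - 1 / 2)))
        (funext fun p => ?_)).mpr h4
      rw [tfac_eq_lib f _ s p p.2]
      exact eul_shift f hf.real χ.conductor χ.primitiveCharacter s p p.2
    refine ⟨fun G => ⟨?_, fun s hs => ?_⟩, ?_⟩
    · have e1 : (fun s : ℂ => ∏ᶠ χ : G, L (χ : DirichletCharacter ℂ q).conductor
            (χ : DirichletCharacter ℂ q).primitiveCharacter (s - 1 / 2)) =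
          fun s : ℂ => ∏ χ ∈ (Finset.univ : Finset (DirichletCharacter ℂ q)).filter (fun χ => χ ∈ G),
            L χ.conductor χ.primitiveCharacter (s - 1 / 2) := by
        funext s
        exact hgrp q G (fun χ => L χ.conductor χ.primitiveCharacter (s - 1 / 2))
      show Differentiable ℂ (fun s : ℂ => ∏ᶠ χ : G, L (χ : DirichletCharacter ℂ q).conductor
            (χ : DirichletCharacter ℂ q).primitiveCharacter (s - 1 / 2))
      rw [e1]
      apply Differentiable.fun_finsetProd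
      intro χ _
      have h2 := (hL χ.conductor χ.primitiveCharacter (Nat.one_le_iff_ne_zero.2 χ.conductor_ne_zero)
        (Nat.Coprime.coprime_dvd_left χ.conductor_dvd_level hqM) χ.primitiveCharacter_isPrimitive).1
      exact h2.comp (by fun_prop)
    · obtain ⟨GF, hGF⟩ : ∃ GF : Finset (DirichletCharacter ℂ q),
        GF = (Finset.univ : Finset (DirichletCharacter ℂ q)).filter (fun χ => χ ∈ G) := ⟨_, rfl⟩
      obtain ⟨u, hu⟩ : ∃ u : DirichletCharacter ℂ q → Nat.Primes → ℂ,
        u = fun (χ : DirichletCharacter ℂ q) (p : Nat.Primes) => tfac f χ.primitiveCharacter s p := ⟨_, rfl⟩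
      obtain ⟨v, hv⟩ : ∃ v : DirichletCharacter ℂ q → ℂ,
        v = fun (χ : DirichletCharacter ℂ q) => L χ.conductor χ.primitiveCharacter (s - 1 / 2) := ⟨_, rfl⟩
      have huv : ∀ χ ∈ GF, HasProd (u χ) (v χ) := by
        intro χ _
        rw [hu, hv]
        exact hpr χ s hs
      have h6 : HasProd (fun p => ∏ χ ∈ GF, u χ p) (∏ χ ∈ GF, v χ) := hasProd_prod huv
      have e6 : (fun p : Nat.Primes => ∏ᶠ χ : G, tfac f (χ : DirichletCharacter ℂ q).primitiveCharacter s p) =
          fun p => ∏ χ ∈ GF, u χ p := by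
        funext p
        rw [hu, hGF]
        exact hgrp q G (fun χ => tfac f χ.primitiveCharacter s p)
      have e7 : ∏ᶠ χ : G, L (χ : DirichletCharacter ℂ q).conductor
            (χ : DirichletCharacter ℂ q).primitiveCharacter (s - 1 / 2) = ∏ χ ∈ GF, v χ := by
        rw [hv, hGF]
        exact hgrp q G (fun χ => L χ.conductor χ.primitiveCharacter (s - 1 / 2))
      show HasProd (fun p : Nat.Primes => ∏ᶠ χ : G, tfac f (χ : DirichletCharacter ℂ q).primitiveCharacter s p)
        (∏ᶠ χ : G, L (χ : DirichletCharacter ℂ q).conductor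
            (χ : DirichletCharacter ℂ q).primitiveCharacter (s - 1 / 2))
      rw [e6, e7]
      exact h6
    · intro K _ _ _ s hs
      have h2 := W165.CE.hasProd_euler hE H (fun q χ s => L q χ (s - 1 / 2)) (by
        intro q χ h1 h2 h3 s hs
        have h4 := (hL q χ h1 h2 h3).2.2.2 (s - 1 / 2) (by
          have : (s - 1 / 2 : ℂ).re = s.re - 1 / 2 := by simp
          rw [this]; linarith)
        refine (congrArg (fun g => HasProd g (L q χ (s - 1 / 2))) (funext fun p => ?_)).mpr h4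
        exact eul_shift f hf.real q χ s p p.2) q hqM K s hs
      beta_reduce
      have e2 : ∏ᶠ χ : (⊤ : Subgroup (DirichletCharacter ℂ q)), L (χ : DirichletCharacter ℂ q).conductor
          (χ : DirichletCharacter ℂ q).primitiveCharacter (s - 1 / 2) =
          ∏ χ : DirichletCharacter ℂ q, L χ.conductor χ.primitiveCharacter (s - 1 / 2) := by
        rw [hgrp q ⊤ (fun χ => L χ.conductor χ.primitiveCharacter (s - 1 / 2))]
        apply Finset.prod_congr _ (fun _ _ => rfl)
        ext χ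
        simp
      rw [e2]
      refine (congrArg (fun g => HasProd g _) (funext fun v => ?_)).mpr h2
      exact factor_eq_lib a b f s v
  · obtain ⟨c, T0, hc, h1⟩ := key 1 one_pos
    refine ⟨c, T0, hc, fun q hq hqM T hT => ?_⟩
    have : NeZero q := ⟨by omega⟩
    have h2 := h1 q hq hqM ⊤ (by
      rw [one_mul]
      have e : Nat.card (⊤ : Subgroup (DirichletCharacter ℂ q)) = q.totient := by
        rw [Nat.card_congr (Subgroup.topEquiv (G := DirichletCharacter ℂ q)).toEquiv]
        exact DirichletCharacter.card_eq_totient_of_hasEnoughRootsOfUnity ℂ q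
      rw [e]) T hT
    exact ⟨h2.1, h2.2.1⟩

end Pool.Agent.Results.MP_fb225e_nt.PositiveProportion
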